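import Mathlib
import Pool.Agent.Helper84.LD.Prims

set_option autoImplicit false

/-!
# MP_93aa28_lc: factor sets of finite codes with bounded deciphering delay (definitions)

Finite words are lists of natural numbers, infinite words are functions on the natural numbers.
-/

namespace Pool.Agent.Helper31.BD

/-- all entries of the list of words lie in the finite set -/
def Over (C : Finset (List ℕ)) (l : List (List ℕ)) : Prop := ∀ c ∈ l, c ∈ C

/-- the set of factors of the words of the submonoid generated by the finite set -/
def Fac (C : Finset (List ℕ)) : Set (List ℕ) :=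
  {w | ∃ u v : List ℕ, ∃ l : List (List ℕ), Over C l ∧ u ++ w ++ v = l.flatten}

/-- unique factorisation (the code condition of the frozen statement) -/
def UD (C : Finset (List ℕ)) : Prop :=
  ∀ l1 l2 : List (List ℕ), Over C l1 → Over C l2 → l1.flatten = l2.flatten → l1 = l2

/-- deciphering delay (from left to right) at most the given number -/
def BDD (C : Finset (List ℕ)) (D : ℕ) : Prop :=
  ∀ c ∈ C, ∀ c' ∈ C, ∀ l l' : List (List ℕ), Over C l → Over C l' → D ≤ l.length →
    (c :: l).flatten <+: (c' :: l').flatten → c = c'

/-- the set of reversed words -/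
def revC (C : Finset (List ℕ)) : Finset (List ℕ) := C.image List.reverse

/-- the prefixes of the words of the generated submonoid -/
def Pf (C : Finset (List ℕ)) : Set (List ℕ) :=
  {w | ∃ l : List (List ℕ), Over C l ∧ w <+: l.flatten}

/-- prefix of an infinite word -/
def pre (y : ℕ → ℕ) (k : ℕ) : List ℕ := (List.range k).map y

/-- a finite word followed by an infinite word -/
def app (u : List ℕ) (y : ℕ → ℕ) : ℕ → ℕ :=
  fun i => if i < u.length then u.getD i 0 else y (i - u.length)

/-- the infinite words all of whose prefixes are prefixes of words of the generated submonoid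
(for a finite set without the empty word these are the infinite products) -/
def Om (C : Finset (List ℕ)) : Set (ℕ → ℕ) := {y | ∀ k, pre y k ∈ Pf C}

/-- left quotient of a language -/
def quo (L : Set (List ℕ)) (u : List ℕ) : Set (List ℕ) := {v | u ++ v ∈ L}

/-- infinite words with all prefixes in the language -/
def Fi (L : Set (List ℕ)) : Set (ℕ → ℕ) := {y | ∀ k, pre y k ∈ L}

/-- the two infinite words have the same follower type with respect to the language -/
def Eqv (L : Set (List ℕ)) (y y' : ℕ → ℕ) : Prop :=
  ∀ u : List ℕ, y ∈ Fi (quo L u) ↔ y' ∈ Fi (quo L u)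

/-- the language has at most the given number of left quotients -/
def Few (L : Set (List ℕ)) (N : ℕ) : Prop :=
  ∃ st : List ℕ → Fin N, ∀ u u' : List ℕ, st u = st u' → ∀ v, (u ++ v ∈ L ↔ u' ++ v ∈ L)

/-! ### the decision procedure -/

/-- all lists of exactly k entries from the given list of words -/
def pw (C : List (List ℕ)) : ℕ → List (List (List ℕ))
  | 0 => [[]]
  | k + 1 => (pw C k).flatMap fun l => C.map fun c => c :: l

/-- all sublists of a list of words -/
def subs : List (List ℕ) → List (List (List ℕ))
  | [] => [[]]
  | a :: S => subs S ++ (subs S).map fun l => a :: l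

/-- the bound for the delay -/
def D0 (C : List (List ℕ)) : ℕ := C.flatten.length + C.length

/-- the decidable form of bounded delay -/
def DelOK (C : List (List ℕ)) : Prop :=
  ∀ l ∈ pw C (D0 C), ∀ c ∈ C, ∀ c' ∈ C, ∀ j < (c :: l).flatten.length + 1, ∀ l' ∈ pw C j,
    (c' :: l').flatten.take (c :: l).flatten.length = (c :: l).flatten → c = c'

/-- the decidable form of membership in the factor set -/
def FacX (C : List (List ℕ)) (w : List ℕ) : Prop :=
  ∃ j < w.length + 3, ∃ l ∈ pw C j, ∃ i < l.flatten.length + 1,
    (l.flatten.drop i).take w.length = w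

/-- the input: number of letters, transition table, initial state, accepting states -/
abbrev Inp : Type := ℕ × List ℕ × ℕ × List ℕ

/-- the language of the input automaton -/
def LX (x : Inp) : Set (List ℕ) :=
  {w | (∀ a ∈ w, a < x.1) ∧
    w.foldl (fun q a => x.2.1.getD (q * x.1 + a) 0) x.2.2.1 ∈ x.2.2.2}

/-- bound for the number of reachable states (table entries, the default value 0, the initial state)
plus one for the words with a letter that is not allowed -/
def NN (x : Inp) : ℕ := x.2.1.length + 3

/-- bound for the length of the code words -/
def BB (x : Inp) : ℕ := 2 ^ (2 ^ (2 ^ (NN x)))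

/-- bound for the length of a word showing that the two languages differ -/
def KK (x : Inp) (C : List (List ℕ)) : ℕ := NN x * 2 ^ (D0 C)

/-- all words of length at most k over the letters below n -/
def wdLe (n k : ℕ) : List (List ℕ) :=
  (List.range (k + 1)).flatMap fun t => Pool.Agent.Helper84.LD.FL n t

/-- the decision procedure as a predicate -/
def PX (x : Inp) : Prop :=
  ∃ C ∈ subs (wdLe x.1 (BB x)), [] ∉ C ∧ (DelOK C ∨ DelOK (C.map List.reverse)) ∧
    ∀ w ∈ wdLe x.1 (KK x C), (w ∈ LX x ↔ FacX C w)

/-- some finite code with bounded deciphering delay in one of the two directions generates -/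
def Good (L : Set (List ℕ)) : Prop :=
  ∃ C : Finset (List ℕ), UD C ∧ (∃ D, BDD C D ∨ BDD (revC C) D) ∧ L = Fac C

end Pool.Agent.Helper31.BD
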