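import Mathlib
import Pool.Agent.Helper31.BD.Defs

set_option autoImplicit false

/-!
# MP_93aa28_lc (bounded delay): module A (words, prefixes, Om)
-/

namespace Pool.Agent.Helper31.BD

theorem pre_length (y : ℕ → ℕ) (k : ℕ) : (pre y k).length = k := by
  simp [pre]

theorem ma_pre_getD (y : ℕ → ℕ) {k i : ℕ} (h : i < k) : (pre y k).getD i 0 = y i := by
  simp [pre, List.getD, h]

theorem pre_app (u : List ℕ) (y : ℕ → ℕ) (k : ℕ) :
    pre (app u y) (u.length + k) = u ++ pre y k := by
  unfold pre
  rw [List.range_add, List.map_append, List.map_map]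
  congr 1
  · apply List.ext_getElem
    · simp
    · intro i h1 h2
      simp [app, h2]
  · apply List.map_congr_left
    intro i _
    simp [app]

theorem pre_add (y : ℕ → ℕ) (k m : ℕ) : pre y k <+: pre y (k + m) := by
  unfold pre
  rw [List.range_add, List.map_append]
  exact List.prefix_append _ _

theorem pre_ext {y z : ℕ → ℕ} (h : ∀ k, pre y k = pre z k) : y = z := by
  funext n
  rw [← ma_pre_getD y (Nat.lt_succ_self n), ← ma_pre_getD z (Nat.lt_succ_self n), h (n + 1)]

theorem app_nil (y : ℕ → ℕ) : app [] y = y := by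
  funext i
  simp [app]

theorem app_app (u v : List ℕ) (y : ℕ → ℕ) : app u (app v y) = app (u ++ v) y := by
  funext i
  unfold app
  by_cases h1 : i < u.length
  · have h2 : i < (u ++ v).length := by
      rw [List.length_append]
      omega
    rw [if_pos h1, if_pos h2, List.getD_append _ _ _ _ h1]
  · rw [if_neg h1]
    by_cases h2 : i - u.length < v.length
    · have h3 : i < (u ++ v).length := by
        rw [List.length_append]
        omega
      rw [if_pos h2, if_pos h3, List.getD_append_right _ _ _ _ (not_lt.1 h1)]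
    · have h3 : ¬ i < (u ++ v).length := by
        rw [List.length_append]
        omega
      rw [if_neg h2, if_neg h3, List.length_append, Nat.sub_sub]

theorem ma_app_add (u : List ℕ) (y : ℕ → ℕ) (i : ℕ) : app u y (i + u.length) = y i := by
  simp [app]

theorem app_inj {u : List ℕ} {y z : ℕ → ℕ} (h : app u y = app u z) : y = z := by
  funext i
  rw [← ma_app_add u y i, ← ma_app_add u z i, h]

theorem ma_pre_self (u : List ℕ) (y : ℕ → ℕ) : pre (app u y) u.length = u := by
  have h := pre_app u y 0
  rw [Nat.add_zero] at h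
  rw [h]
  simp [pre]

/-- two factorisations of an infinite word: the longer first part extends the shorter one -/
theorem app_split {u v : List ℕ} {y z : ℕ → ℕ} (h : app u y = app v z)
    (hl : u.length ≤ v.length) : ∃ t, v = u ++ t ∧ y = app t z := by
  have h1 : v = u ++ pre y (v.length - u.length) := by
    rw [← pre_app, Nat.add_sub_of_le hl, h, ma_pre_self]
  refine ⟨pre y (v.length - u.length), h1, ?_⟩
  apply app_inj (u := u)
  rw [app_app, ← h1, h]

/-- every infinite word is its prefix followed by the rest -/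
theorem exists_app (y : ℕ → ℕ) (k : ℕ) : ∃ z, y = app (pre y k) z := by
  refine ⟨fun i => y (i + k), ?_⟩
  funext i
  unfold app
  rw [pre_length]
  by_cases h : i < k
  · rw [if_pos h, ma_pre_getD y h]
  · rw [if_neg h]
    show y i = y (i - k + k)
    rw [Nat.sub_add_cancel (not_lt.1 h)]

theorem pf_mono {C : Finset (List ℕ)} {u w : List ℕ} (h : u <+: w) (hw : w ∈ Pf C) :
    u ∈ Pf C := by
  obtain ⟨l, hl, hp⟩ := hw
  exact ⟨l, hl, h.trans hp⟩

theorem pf_sub_fac {C : Finset (List ℕ)} {w : List ℕ} (hw : w ∈ Pf C) : w ∈ Fac C := by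
  obtain ⟨l, hl, v, hv⟩ := hw
  exact ⟨[], v, l, hl, by simpa using hv⟩

theorem fac_infix {C : Finset (List ℕ)} {u w v : List ℕ} (h : u ++ w ++ v ∈ Fac C) :
    w ∈ Fac C := by
  obtain ⟨u', v', l, hl, hv⟩ := h
  exact ⟨u' ++ u, v ++ v', l, hl, by simpa using hv⟩

theorem ma_over_append {C : Finset (List ℕ)} {l l' : List (List ℕ)} (h : Over C l)
    (h' : Over C l') : Over C (l ++ l') := by
  intro c hc
  rcases List.mem_append.1 hc with h1 | h1
  · exact h c h1
  · exact h' c h1

theorem ma_over_cons {C : Finset (List ℕ)} {c : List ℕ} {l : List (List ℕ)} :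
    Over C (c :: l) ↔ c ∈ C ∧ Over C l := by
  unfold Over
  simp

theorem om_app {C : Finset (List ℕ)} {l : List (List ℕ)} (hl : Over C l) {y : ℕ → ℕ}
    (hy : y ∈ Om C) : app l.flatten y ∈ Om C := by
  intro k
  obtain ⟨l', hl', hp⟩ := hy k
  have h1 : pre (app l.flatten y) k <+: pre (app l.flatten y) (l.flatten.length + k) := by
    rw [Nat.add_comm]
    exact pre_add _ _ _
  refine pf_mono h1 ⟨l ++ l', ma_over_append hl hl', ?_⟩
  rw [pre_app, List.flatten_append]
  exact (List.prefix_append_right_inj _).2 hp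

/-- limits of elements of Om are in Om -/
theorem om_closed {C : Finset (List ℕ)} {y : ℕ → ℕ}
    (h : ∀ k, ∃ z ∈ Om C, pre y k = pre z k) : y ∈ Om C := by
  intro k
  obtain ⟨z, hz, he⟩ := h k
  rw [he]
  exact hz k

theorem ma_pre_mono (y : ℕ → ℕ) {k m : ℕ} (h : k ≤ m) : pre y k <+: pre y m := by
  obtain ⟨d, rfl⟩ := Nat.exists_eq_add_of_le h
  exact pre_add y k d

/-- Pigeonhole on the first code word: for each k choose l over C with pre y (k+1) a prefix of
l.flatten; l is nonempty; its first word takes some value c for infinitely many k; then y = app c y'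
and every prefix of y' is a prefix of some l.tail.flatten. -/
theorem om_step {C : Finset (List ℕ)} (h0 : [] ∉ C) {y : ℕ → ℕ} (hy : y ∈ Om C) :
    ∃ c ∈ C, ∃ y' ∈ Om C, y = app c y' := by
  have key : ∀ k, ∃ p : List ℕ × List (List ℕ), p.1 ∈ C ∧ Over C p.2 ∧
      pre y (k + 1) <+: (p.1 :: p.2).flatten := by
    intro k
    obtain ⟨l, hl, hp⟩ := hy (k + 1)
    cases l with
    | nil =>
      have h := hp.length_le
      rw [pre_length] at h
      simp at h
    | cons c l =>
      obtain ⟨h1, h2⟩ := ma_over_cons.1 hl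
      exact ⟨(c, l), h1, h2, hp⟩
  choose p hp1 hp2 hp3 using key
  have hinf : ∃ c ∈ C, ∀ n, ∃ k, n ≤ k ∧ (p k).1 = c := by
    by_contra hcon
    push Not at hcon
    choose! b hb using hcon
    have h1 := hb (p (∑ c ∈ C, b c)).1 (hp1 _) (∑ c ∈ C, b c)
      (Finset.single_le_sum (f := b) (fun _ _ => Nat.zero_le _) (hp1 _))
    exact h1 rfl
  obtain ⟨c, hc, hk⟩ := hinf
  have hcpre : c = pre y c.length := by
    obtain ⟨k, hk1, hk2⟩ := hk c.length
    have h1 : c <+: (c :: (p k).2).flatten := by
      rw [List.flatten_cons]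
      exact List.prefix_append _ _
    have h2 := hp3 k
    rw [hk2] at h2
    have h3 : pre y c.length <+: (c :: (p k).2).flatten :=
      (ma_pre_mono y (by omega)).trans h2
    have h4 : c <+: pre y c.length :=
      List.prefix_of_prefix_length_le h1 h3 (by rw [pre_length])
    exact h4.eq_of_length (by rw [pre_length])
  obtain ⟨y', hy'⟩ := exists_app y c.length
  rw [← hcpre] at hy'
  refine ⟨c, hc, y', ?_, hy'⟩
  intro m
  obtain ⟨k, hk1, hk2⟩ := hk (c.length + m)
  have h2 := hp3 k
  rw [hk2, List.flatten_cons] at h2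
  have h3 : pre y (c.length + m) <+: c ++ (p k).2.flatten :=
    (ma_pre_mono y (by omega)).trans h2
  rw [hy', pre_app] at h3
  exact ⟨(p k).2, hp2 k, (List.prefix_append_right_inj _).1 h3⟩

theorem om_many {C : Finset (List ℕ)} (h0 : [] ∉ C) {y : ℕ → ℕ} (hy : y ∈ Om C) (k : ℕ) :
    ∃ l : List (List ℕ), Over C l ∧ l.length = k ∧ ∃ y' ∈ Om C, y = app l.flatten y' := by
  induction k generalizing y with
  | zero =>
    refine ⟨[], ?_, rfl, y, hy, ?_⟩
    · intro c hc
      simp at hc
    · rw [List.flatten_nil, app_nil]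
  | succ k ih =>
    obtain ⟨c, hc, y1, hy1, he⟩ := om_step h0 hy
    obtain ⟨l, hl, hlen, y2, hy2, he2⟩ := ih hy1
    refine ⟨c :: l, ma_over_cons.2 ⟨hc, hl⟩, by simp [hlen], y2, hy2, ?_⟩
    rw [List.flatten_cons, ← app_app, ← he2, he]

/-- take the periodic word c c c ... for some c in C -/
theorem om_nonempty {C : Finset (List ℕ)} (h0 : [] ∉ C) (hne : C.Nonempty) :
    ∃ y, y ∈ Om C := by
  obtain ⟨c, hc⟩ := hne
  have hc0 : 0 < c.length := by
    rcases Nat.eq_zero_or_pos c.length with h | h
    · exact absurd (List.length_eq_zero_iff.1 h ▸ hc) h0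
    · exact h
  let y : ℕ → ℕ := fun i => c.getD (i % c.length) 0
  have hy : y = app c y := by
    funext i
    unfold app
    by_cases h : i < c.length
    · rw [if_pos h]
      simp only [y]
      rw [Nat.mod_eq_of_lt h]
    · rw [if_neg h]
      simp only [y]
      rw [← Nat.mod_eq_sub_mod (not_lt.1 h)]
  have hrep : ∀ n, ∃ l : List (List ℕ), Over C l ∧ n ≤ (pre y (n * c.length)).length ∧
      pre y (n * c.length) = l.flatten := by
    intro n
    induction n with
    | zero =>
      refine ⟨[], ?_, Nat.zero_le _, ?_⟩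
      · intro d hd
        simp at hd
      · simp [pre]
    | succ n ih =>
      obtain ⟨l, hl, _, hle⟩ := ih
      refine ⟨c :: l, ma_over_cons.2 ⟨hc, hl⟩, ?_, ?_⟩
      · rw [pre_length]
        exact Nat.le_mul_of_pos_right _ hc0
      · rw [Nat.succ_mul, Nat.add_comm, List.flatten_cons, ← hle]
        conv_lhs => rw [hy]
        exact pre_app c y (n * c.length)
  refine ⟨y, fun k => ?_⟩
  obtain ⟨l, hl, hk, he⟩ := hrep k
  rw [pre_length] at hk
  refine ⟨l, hl, ?_⟩
  rw [← he]
  exact ma_pre_mono y hk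

/-- the empty set of words has no infinite product -/
theorem om_empty {y : ℕ → ℕ} : y ∉ Om (∅ : Finset (List ℕ)) := by
  intro hy
  obtain ⟨l, hl, hp⟩ := hy 1
  cases l with
  | nil =>
    have h := hp.length_le
    rw [pre_length] at h
    simp at h
  | cons c l =>
    have h := (ma_over_cons.1 hl).1
    simp at h

/-- a word is a prefix of a product iff it is a prefix of an infinite product -/
theorem pf_iff_om {C : Finset (List ℕ)} (h0 : [] ∉ C) (hne : C.Nonempty) (w : List ℕ) :
    w ∈ Pf C ↔ ∃ y, app w y ∈ Om C := by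
  constructor
  · rintro ⟨l, hl, v, hv⟩
    obtain ⟨y0, hy0⟩ := om_nonempty h0 hne
    refine ⟨app v y0, ?_⟩
    rw [app_app, hv]
    exact om_app hl hy0
  · rintro ⟨y, hy⟩
    have h := hy w.length
    rwa [ma_pre_self] at h

theorem fi_app {L : Set (List ℕ)} (hL : ∀ u v : List ℕ, u ++ v ∈ L → u ∈ L) (u v : List ℕ)
    (y : ℕ → ℕ) : app v y ∈ Fi (quo L u) ↔ y ∈ Fi (quo L (u ++ v)) := by
  constructor
  · intro h k
    have h1 : u ++ pre (app v y) (v.length + k) ∈ L := h (v.length + k)
    rw [pre_app, ← List.append_assoc] at h1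
    exact h1
  · intro h k
    have h1 : u ++ v ++ pre y k ∈ L := h k
    obtain ⟨t, ht⟩ := pre_add (app v y) k v.length
    rw [Nat.add_comm, pre_app] at ht
    rw [List.append_assoc, ← ht, ← List.append_assoc] at h1
    exact hL _ _ h1

end Pool.Agent.Helper31.BD
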