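import Mathlib
import Pool.Agent.Helper31.BD.Defs

set_option autoImplicit false

/-!
# MP_93aa28_lc (bounded delay): module B (a product after which every continuation in the factor set
can be parsed)
-/

namespace Pool.Agent.Helper31.BD

/-- cutting a product at the beginning of the word in which the cut lies -/
theorem mb_cut (C : Finset (List ℕ)) (l : List (List ℕ)) (hl : Over C l) :
    ∀ u w : List ℕ, u ++ w = l.flatten →
      ∃ s : List ℕ, (s = [] ∨ ∃ c ∈ C, s <+: c) ∧ ∃ l' : List (List ℕ), Over C l' ∧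
        s ++ w = l'.flatten := by
  induction l with
  | nil =>
    intro u w h
    refine ⟨[], Or.inl rfl, [], hl, ?_⟩
    simp only [List.flatten_nil, List.append_eq_nil_iff] at h
    simp [h.2]
  | cons c l ih =>
    intro u w h
    have hc : c ∈ C := hl c (by simp)
    have hl' : Over C l := fun d hd => hl d (by simp [hd])
    rw [List.flatten_cons, List.append_eq_append_iff] at h
    rcases h with ⟨a, ha, hb⟩ | ⟨a, ha, hb⟩
    · -- c = u ++ a
      refine ⟨u, Or.inr ⟨c, hc, ⟨a, ha.symm⟩⟩, c :: l, hl, ?_⟩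
      rw [List.flatten_cons, ha, hb, List.append_assoc]
    · exact ih hl' a w hb.symm

/-- the factor set is closed under factors -/
theorem mb_infix {C : Finset (List ℕ)} {u w v : List ℕ} (h : u ++ w ++ v ∈ Fac C) : w ∈ Fac C := by
  obtain ⟨u', v', l, hl, h⟩ := h
  refine ⟨u' ++ u, v ++ v', l, hl, ?_⟩
  rw [← h]
  simp only [List.append_assoc]

theorem exists_full (C : Finset (List ℕ)) : ∃ l : List (List ℕ), Over C l ∧
    ∀ z : List ℕ, l.flatten ++ z ∈ Fac C → l.flatten ++ z ∈ Pf C := by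
  classical
  -- the finite set of prefixes
  let Q : Finset (List ℕ) := insert [] (C.biUnion fun c => c.inits.toFinset)
  let Sig : List ℕ → Finset (List ℕ) := fun w => Q.filter fun s => s ++ w ∈ Pf C
  have hQ : ∀ s : List ℕ, (s = [] ∨ ∃ c ∈ C, s <+: c) → s ∈ Q := by
    rintro s (rfl | ⟨c, hc, hs⟩)
    · exact Finset.mem_insert_self _ _
    · refine Finset.mem_insert_of_mem (Finset.mem_biUnion.2 ⟨c, hc, ?_⟩)
      rw [List.mem_toFinset, List.mem_inits]
      exact hs
  have hne : ∀ w ∈ Fac C, (Sig w).Nonempty := by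
    rintro w ⟨u, v, l, hl, h⟩
    obtain ⟨s, hs, l', hl', h'⟩ := mb_cut C l hl u (w ++ v) (by rw [← h, List.append_assoc])
    refine ⟨s, Finset.mem_filter.2 ⟨hQ s hs, l', hl', ?_⟩⟩
    rw [← h', ← List.append_assoc]
    exact List.prefix_append _ _
  have hsub : ∀ w z : List ℕ, Sig (w ++ z) ⊆ Sig w := by
    intro w z s hs
    obtain ⟨h1, l, hl, h2⟩ := Finset.mem_filter.1 hs
    refine Finset.mem_filter.2 ⟨h1, l, hl, ?_⟩
    refine List.IsPrefix.trans ?_ h2
    rw [← List.append_assoc]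
    exact List.prefix_append _ _
  have hex : ∃ n, ∃ w ∈ Fac C, (Sig w).card = n :=
    ⟨_, [], ⟨[], [], [], by intro c hc; simp at hc, by simp⟩, rfl⟩
  obtain ⟨w0, hw0, hcard⟩ := Nat.find_spec hex
  have hmin : ∀ w ∈ Fac C, (Sig w0).card ≤ (Sig w).card := by
    intro w hw
    rw [hcard]
    exact Nat.find_min' hex ⟨w, hw, rfl⟩
  have heq : ∀ z, w0 ++ z ∈ Fac C → Sig (w0 ++ z) = Sig w0 := fun z hz =>
    Finset.eq_of_subset_of_card_le (hsub w0 z) (hmin _ hz)
  obtain ⟨s, hs⟩ := hne w0 hw0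
  obtain ⟨-, l, hl, t, ht⟩ := Finset.mem_filter.1 hs
  refine ⟨l, hl, ?_⟩
  intro z hz
  have e : l.flatten ++ z = s ++ (w0 ++ (t ++ z)) := by
    rw [← ht]
    simp only [List.append_assoc]
  have hf : w0 ++ (t ++ z) ∈ Fac C := by
    apply mb_infix (u := s) (v := [])
    rw [List.append_nil, ← e]
    exact hz
  have hs' : s ∈ Sig (w0 ++ (t ++ z)) := by
    rw [heq _ hf]
    exact hs
  rw [e]
  exact (Finset.mem_filter.1 hs').2

end Pool.Agent.Helper31.BD
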