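import Mathlib
import Pool.Agent.Helper31.BD.Defs
import Pool.Agent.Helper31.BD.A

set_option autoImplicit false

/-!
# MP_93aa28_lc (bounded delay): module C (bounded delay: unique parse, stripping, local form)
-/

namespace Pool.Agent.Helper31.BD

/-- a product of k nonempty words has length at least k -/
theorem mc_len {C : Finset (List ℕ)} (h0 : [] ∉ C) {l : List (List ℕ)} (hl : Over C l) :
    l.length ≤ l.flatten.length := by
  induction l with
  | nil => simp
  | cons c l ih =>
    have h1 : Over C l := fun x hx => hl x (List.mem_cons_of_mem _ hx)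
    have h2 : c ∈ C := hl c List.mem_cons_self
    have h3 : c.length ≠ 0 := by
      intro h
      exact h0 ((List.eq_nil_of_length_eq_zero h) ▸ h2)
    have h4 := ih h1
    simp only [List.length_cons, List.flatten_cons, List.length_append]
    omega

/-- a product of words of bounded length has bounded length -/
theorem mc_len_le {C : Finset (List ℕ)} {l : List (List ℕ)} (hl : Over C l) :
    l.flatten.length ≤ l.length * C.sup List.length := by
  induction l with
  | nil => simp
  | cons c l ih =>
    have h1 : Over C l := fun x hx => hl x (List.mem_cons_of_mem _ hx)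
    have h2 : c ∈ C := hl c List.mem_cons_self
    have h3 : c.length ≤ C.sup List.length := Finset.le_sup (f := List.length) h2
    have h4 := ih h1
    simp only [List.length_cons, List.flatten_cons, List.length_append]
    nlinarith

theorem mc_over_tail {C : Finset (List ℕ)} {c : List ℕ} {l : List (List ℕ)}
    (hl : Over C (c :: l)) : Over C l := fun x hx => hl x (List.mem_cons_of_mem _ hx)

theorem mc_over_app {C : Finset (List ℕ)} {l l' : List (List ℕ)}
    (hl : Over C l) (hl' : Over C l') : Over C (l ++ l') := by
  intro x hx
  rcases List.mem_append.1 hx with h | h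
  · exact hl x h
  · exact hl' x h

/-- the key step: a product of c and at least D further words, followed by an infinite word, equal to
an infinite product starting with c' -/
theorem mc_first {C : Finset (List ℕ)} (h0 : [] ∉ C) {D : ℕ} (hD : BDD C D) {c : List ℕ}
    {l : List (List ℕ)} (hc : c ∈ C) (hl : Over C l) (hlen : D ≤ l.length) {y : ℕ → ℕ}
    (hy : app (c :: l).flatten y ∈ Om C) : app l.flatten y ∈ Om C ∧
      ∀ c' ∈ C, ∀ y' ∈ Om C, app (c :: l).flatten y = app c' y' → c = c' := by
  have key : ∀ c' ∈ C, ∀ y' ∈ Om C, app (c :: l).flatten y = app c' y' → c = c' := by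
    intro c' hc' y' hy' h
    obtain ⟨l', hl', hk, z, hz, hz2⟩ := om_many h0 hy' (c :: l).flatten.length
    have h1 : app (c :: l).flatten y = app (c' :: l').flatten z := by
      rw [h, hz2, app_app, List.flatten_cons]
    have h2 := mc_len h0 hl'
    have h3 : (c :: l).flatten.length ≤ (c' :: l').flatten.length := by
      rw [List.flatten_cons (l := c'), List.length_append]
      omega
    obtain ⟨t, ht, _⟩ := app_split h1 h3
    exact hD c hc c' hc' l l' hl hl' hlen ⟨t, ht.symm⟩
  refine ⟨?_, key⟩
  obtain ⟨c', hc', y', hy', h⟩ := om_step h0 hy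
  have hcc := key c' hc' y' hy' h
  subst hcc
  have h1 : app c (app l.flatten y) = app c y' := by
    rw [app_app, ← List.flatten_cons, h]
  rw [app_inj h1]
  exact hy'

/-- the unique parse property of infinite words -/
theorem bdd_up {C : Finset (List ℕ)} (h0 : [] ∉ C) {D : ℕ} (hD : BDD C D) {c c' : List ℕ}
    (hc : c ∈ C) (hc' : c' ∈ C) {y y' : ℕ → ℕ} (hy : y ∈ Om C) (hy' : y' ∈ Om C)
    (h : app c y = app c' y') : c = c' := by
  obtain ⟨l, hl, hk, z, hz, hz2⟩ := om_many h0 hy D
  have h1 : app (c :: l).flatten z = app c y := by
    rw [hz2, app_app, List.flatten_cons]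
  have h2 : app (c :: l).flatten z ∈ Om C := by
    apply om_app _ hz
    intro x hx
    rcases List.mem_cons.1 hx with h | h
    · exact h ▸ hc
    · exact hl x h
  exact (mc_first h0 hD hc hl (le_of_eq hk.symm) h2).2 c' hc' y' hy' (h1.trans h)

/-- Stripping: induction on l0.  If l0 = c :: l0', then the word app (l0 ++ l1).flatten y is in Om C,
so it is app (l').flatten y' with l' over C, y' in Om C and l'.length large (om_many), so that
(l0 ++ l1).flatten is a prefix of l'.flatten; by BDD the first word of l' is c (the rest l0' ++ l1
has length at least D), so app (l0' ++ l1).flatten y is in Om C. -/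
theorem strip {C : Finset (List ℕ)} (h0 : [] ∉ C) {D : ℕ} (hD : BDD C D)
    {l0 l1 : List (List ℕ)} (hl0 : Over C l0) (hl1 : Over C l1) (hlen : D ≤ l1.length)
    {y : ℕ → ℕ} (hy : app (l0 ++ l1).flatten y ∈ Om C) : app l1.flatten y ∈ Om C := by
  induction l0 with
  | nil => simpa using hy
  | cons c l0 ih =>
    have h1 := mc_over_tail hl0
    refine ih h1 ?_
    rw [List.cons_append] at hy
    refine (mc_first h0 hD (hl0 c List.mem_cons_self) (mc_over_app h1 hl1) ?_ hy).1
    rw [List.length_append]
    omega

/-- Local form.  Let l0 be a list over C with the property of exists_full.  There is n0 such that for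
every f in Om C, every k at least n0 and every infinite word y:
app (pre f k) y in Om C iff y in Fi (quo (Fac C) (l0.flatten ++ pre f k)).
Take n0 = D * (maximal length of a word of C).  Forward: app (l0.flatten ++ pre f k) y is in Om C and
its prefixes are in Pf C, so in Fac C.  Backward: all prefixes of app (l0.flatten ++ pre f k) y are in
Fac C, so in Pf C by the property of l0 (for the prefixes shorter than l0.flatten use pf_mono), so this
word is in Om C; by om_many f = app l1.flatten f' with l1.length = D, and l1.flatten.length is at
most n0, hence at most k, so pre f k = l1.flatten ++ t; now strip. -/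
theorem local_form {C : Finset (List ℕ)} (h0 : [] ∉ C) {D : ℕ} (hD : BDD C D)
    {l0 : List (List ℕ)} (hl0 : Over C l0)
    (hfull : ∀ z : List ℕ, l0.flatten ++ z ∈ Fac C → l0.flatten ++ z ∈ Pf C) :
    ∃ n0 : ℕ, ∀ f ∈ Om C, ∀ k, n0 ≤ k → ∀ y : ℕ → ℕ,
      (app (pre f k) y ∈ Om C ↔ y ∈ Fi (quo (Fac C) (l0.flatten ++ pre f k))) := by
  refine ⟨D * C.sup List.length, ?_⟩
  intro f hf k hk y
  constructor
  · intro h j
    have h1 : app (l0.flatten ++ pre f k) y ∈ Om C := by
      rw [← app_app]
      exact om_app hl0 h
    have h2 := h1 ((l0.flatten ++ pre f k).length + j)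
    rw [pre_app] at h2
    exact pf_sub_fac h2
  · intro h
    have h1 : app (l0.flatten ++ pre f k) y ∈ Om C := by
      intro i
      have h2 : (l0.flatten ++ pre f k) ++ pre y i ∈ Fac C := h i
      rw [List.append_assoc] at h2
      have h3 := hfull _ h2
      rw [← List.append_assoc, ← pre_app] at h3
      refine pf_mono ?_ h3
      rw [Nat.add_comm]
      exact pre_add _ _ _
    obtain ⟨l1, hl1, hlen, f', hf', hff⟩ := om_many h0 hf D
    have h4 : l1.flatten.length ≤ k := by
      refine (mc_len_le hl1).trans ?_
      rw [hlen]
      exact hk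
    obtain ⟨m, hm⟩ := Nat.exists_eq_add_of_le h4
    have h5 : pre f k = l1.flatten ++ pre f' m := by
      rw [hff, hm, pre_app]
    have h6 : app (l0 ++ l1).flatten (app (pre f' m) y) ∈ Om C := by
      rw [h5] at h1
      rw [app_app, List.flatten_append, List.append_assoc]
      exact h1
    have h7 := strip h0 hD hl0 hl1 (le_of_eq hlen.symm) h6
    rw [app_app, ← h5] at h7
    exact h7

end Pool.Agent.Helper31.BD
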