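import Mathlib
import Pool.Agent.Helper31.BD.Defs
import Pool.Agent.Helper31.BD.A
import Pool.Agent.Helper31.BD.B
import Pool.Agent.Helper31.BD.C

set_option autoImplicit false

/-!
# MP_93aa28_lc (bounded delay): module D (the infinite products are a union of follower types)
-/

namespace Pool.Agent.Helper31.BD

/-- the words v such that w ++ v ends at the first cut not before the end of w -/
def md_T (C : Finset (List ℕ)) (w v : List ℕ) : Prop :=
  ∃ l : List (List ℕ), Over C l ∧ w ++ v = l.flatten ∧
    (v = [] ∨ ∃ (l' : List (List ℕ)) (c : List ℕ), l = l' ++ [c] ∧ v.length < c.length)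

theorem md_over_nil (C : Finset (List ℕ)) : Over C [] := by
  intro c hc
  simp at hc

theorem md_over_cons {C : Finset (List ℕ)} {c : List ℕ} {l : List (List ℕ)} (hc : c ∈ C)
    (hl : Over C l) : Over C (c :: l) := by
  intro d hd
  rcases List.mem_cons.1 hd with h | h
  · rw [h]
    exact hc
  · exact hl d h

/-- existence of the cut -/
theorem md_exists_cut {C : Finset (List ℕ)} (h0 : [] ∉ C) :
    ∀ (n : ℕ) (w : List ℕ), w.length = n → ∀ y : ℕ → ℕ, app w y ∈ Om C →
      ∃ v, md_T C w v ∧ ∃ y' ∈ Om C, y = app v y' := by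
  intro n
  induction n using Nat.strong_induction_on with
  | _ n ih =>
    intro w hw y hy
    by_cases hw0 : w = []
    · subst hw0
      rw [app_nil] at hy
      refine ⟨[], ⟨[], md_over_nil C, rfl, Or.inl rfl⟩, y, hy, (app_nil y).symm⟩
    · obtain ⟨c, hc, y1, hy1, he⟩ := om_step h0 hy
      have hc0 : c ≠ [] := fun h => h0 (h ▸ hc)
      have hcl : 0 < c.length := List.length_pos_iff.2 hc0
      rcases le_or_gt c.length w.length with hle | hgt
      · obtain ⟨w1, hw1, hy1'⟩ := app_split he.symm hle
        subst hw1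
        have hlen : w1.length < n := by
          rw [← hw, List.length_append]
          omega
        rw [hy1'] at hy1
        obtain ⟨v, ⟨l, hl, hlv, hv⟩, y', hy', hyy⟩ := ih w1.length hlen w1 rfl y hy1
        refine ⟨v, ⟨c :: l, md_over_cons hc hl, ?_, ?_⟩, y', hy', hyy⟩
        · rw [List.append_assoc, hlv, List.flatten_cons]
        · rcases hv with hv | ⟨l', c', hl', hc'⟩
          · exact Or.inl hv
          · refine Or.inr ⟨c :: l', c', ?_, hc'⟩
            rw [hl', List.cons_append]
      · obtain ⟨v, hv, hyv⟩ := app_split he hgt.le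
        refine ⟨v, ⟨[c], md_over_cons hc (md_over_nil C), ?_, Or.inr ⟨[], c, rfl, ?_⟩⟩,
          y1, hy1, hyv⟩
        · simp [hv]
        · rw [hv, List.length_append]
          have : 0 < w.length := List.length_pos_iff.2 hw0
          omega

/-- unique parse of infinite words -/
theorem md_unique {C : Finset (List ℕ)} (h0 : [] ∉ C) {D : ℕ} (hD : BDD C D) :
    ∀ (l l' : List (List ℕ)) (y y' : ℕ → ℕ), Over C l → Over C l' → y ∈ Om C → y' ∈ Om C →
      app l.flatten y = app l'.flatten y' → l.flatten.length ≤ l'.flatten.length → l <+: l' := by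
  intro l
  induction l with
  | nil =>
    intro l' y y' _ _ _ _ _ _
    exact List.nil_prefix
  | cons c l ih =>
    intro l' y y' hl hl' hy hy' he hlen
    have hc : c ∈ C := hl c (by simp)
    have hc0 : c ≠ [] := fun h => h0 (h ▸ hc)
    have hcl : 0 < c.length := List.length_pos_iff.2 hc0
    cases l' with
    | nil =>
      simp only [List.flatten_cons, List.length_append, List.flatten_nil, List.length_nil] at hlen
      omega
    | cons c' l' =>
      have hc' : c' ∈ C := hl' c' (by simp)
      have hlt : Over C l := fun d hd => hl d (List.mem_cons_of_mem _ hd)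
      have hlt' : Over C l' := fun d hd => hl' d (List.mem_cons_of_mem _ hd)
      rw [List.flatten_cons, List.flatten_cons, ← app_app, ← app_app] at he
      have hcc : c = c' := bdd_up h0 hD hc hc' (om_app hlt hy) (om_app hlt' hy') he
      subst hcc
      have he2 := app_inj he
      rw [List.flatten_cons, List.flatten_cons, List.length_append, List.length_append] at hlen
      have := ih l' y y' hlt hlt' hy hy' he2 (by omega)
      exact (List.prefix_cons_inj c).2 this

theorem md_flatten_le {l l' : List (List ℕ)} (h : l <+: l') :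
    l.flatten.length ≤ l'.flatten.length := by
  obtain ⟨t, ht⟩ := h
  rw [← ht, List.flatten_append, List.length_append]
  omega

/-- continuation in the factor set versus infinite products, after a full word -/
theorem md_full_iff {C : Finset (List ℕ)} {w : List ℕ}
    (hw : ∀ z : List ℕ, w ++ z ∈ Fac C → w ++ z ∈ Pf C) (y : ℕ → ℕ) :
    app w y ∈ Om C ↔ y ∈ Fi (quo (Fac C) w) := by
  constructor
  · intro h k
    have := h (w.length + k)
    rw [pre_app] at this
    exact pf_sub_fac this
  · intro h k
    have h1 := hw _ (h k)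
    rw [← pre_app] at h1
    refine pf_mono ?_ h1
    rw [Nat.add_comm]
    exact pre_add _ _ _

theorem one_step {C : Finset (List ℕ)} (h0 : [] ∉ C) (hne : C.Nonempty) {D : ℕ} (hD : BDD C D) :
    ∃ (r : List ℕ) (V : Set (List ℕ)), (∀ d ∈ V, d ≠ []) ∧ ∀ y : ℕ → ℕ,
      (y ∈ Om C ↔ (y ∈ Fi (quo (Fac C) r) ∧ ∀ d ∈ V, app d y ∉ Om C)) := by
  have _ := hne
  obtain ⟨l0, hl0, hfull⟩ := exists_full C
  -- the pairs
  let Q : ℕ → Prop := fun n => ∃ w s : List ℕ,
    (∀ z : List ℕ, w ++ z ∈ Fac C → w ++ z ∈ Pf C) ∧ md_T C w s ∧ s.length = n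
  have hQ0 : Q 0 := ⟨l0.flatten, [], hfull, ⟨l0, hl0, by simp, Or.inl rfl⟩, rfl⟩
  have hbd : ∀ n, Q n → n ≤ C.sup List.length := by
    rintro n ⟨w, s, _, ⟨l, hl, _, hs⟩, hn⟩
    rcases hs with hs | ⟨l', c, hl', hc⟩
    · subst hs
      simp at hn
      omega
    · have hcC : c ∈ C := hl c (by rw [hl']; simp)
      have : c.length ≤ C.sup List.length := Finset.le_sup (f := List.length) hcC
      omega
  classical
  obtain ⟨n, hQn, hmax⟩ : ∃ n, Q n ∧ ∀ m, Q m → m ≤ n := by
    refine ⟨Nat.findGreatest Q (C.sup List.length), ?_, ?_⟩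
    · exact Nat.findGreatest_spec (P := Q) (Nat.zero_le _) hQ0
    · intro m hm
      exact Nat.le_findGreatest (hbd m hm) hm
  obtain ⟨w, s, hw, hT, hsn⟩ := hQn
  have hws : ∀ z : List ℕ, (w ++ s) ++ z ∈ Fac C → (w ++ s) ++ z ∈ Pf C := by
    intro z hz
    rw [List.append_assoc] at hz ⊢
    exact hw _ hz
  refine ⟨w ++ s, {d | d ≠ [] ∧ ∃ v, md_T C w v ∧ v ++ d = s}, fun d hd => hd.1, ?_⟩
  intro y
  constructor
  · intro hy
    obtain ⟨ls, hls, hlsf, hs⟩ := hT
    have hom : app (w ++ s) y ∈ Om C := by
      rw [hlsf]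
      exact om_app hls hy
    refine ⟨(md_full_iff hws y).1 hom, ?_⟩
    rintro d ⟨hd0, v, ⟨lv, hlv, hlvf, _⟩, hvd⟩ hdy
    have he : app lv.flatten (app d y) = app ls.flatten y := by
      rw [app_app, ← hlvf, ← hlsf, List.append_assoc, hvd]
    have hdl : 0 < d.length := List.length_pos_iff.2 hd0
    have hlen : lv.flatten.length < ls.flatten.length := by
      rw [← hlvf, ← hlsf, ← hvd]
      simp only [List.length_append]
      omega
    have hpre := md_unique h0 hD lv ls _ _ hlv hls hdy hy he hlen.le
    rcases hs with hs | ⟨l', c, hl', hc⟩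
    · rw [hs] at hvd
      have := (List.append_eq_nil_iff.1 hvd).2
      exact hd0 this
    · -- lv is an initial part of the other list
      have hpl : lv <+: l' := by
        rw [hl'] at hpre
        rcases (List.prefix_concat_iff).1 hpre with h | h
        · exfalso
          rw [h, ← hl'] at hlen
          exact lt_irrefl _ hlen
        · exact h
      have h1 := md_flatten_le hpl
      rw [← hlvf] at h1
      have h2 : (w ++ s).length = l'.flatten.length + c.length := by
        rw [hlsf, hl']
        simp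
      rw [List.length_append] at h1 h2
      omega
  · rintro ⟨hy, hV⟩
    have hom : app (w ++ s) y ∈ Om C := (md_full_iff hws y).2 hy
    rw [← app_app] at hom
    obtain ⟨v, hv, y', hy', he⟩ := md_exists_cut h0 w.length w rfl _ hom
    have hvs : v.length ≤ s.length := by
      rw [hsn]
      exact hmax _ ⟨w, v, hw, hv, rfl⟩
    obtain ⟨t, ht, hyt⟩ := app_split he.symm hvs
    by_cases ht0 : t = []
    · rw [ht0, app_nil] at hyt
      rw [← hyt]
      exact hy'
    · exfalso
      refine hV t ⟨ht0, v, hv, ht.symm⟩ ?_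
      rw [← hyt]
      exact hy'

theorem md_fac_left {C : Finset (List ℕ)} (u v : List ℕ) (h : u ++ v ∈ Fac C) : u ∈ Fac C := by
  have : [] ++ u ++ v ∈ Fac C := by simpa using h
  exact fac_infix this

theorem md_eqv_symm {L : Set (List ℕ)} {y y' : ℕ → ℕ} (h : Eqv L y y') : Eqv L y' y :=
  fun u => (h u).symm

theorem md_det {C : Finset (List ℕ)} (h0 : [] ∉ C) (hne : C.Nonempty) {D : ℕ}
    (hD : BDD C D) {n0 : ℕ}
    (hn0 : ∀ u : List ℕ, n0 ≤ u.length → ∀ y y' : ℕ → ℕ, Eqv (Fac C) y y' →
      app u y ∈ Om C → app u y' ∈ Om C) :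
    ∀ j, ∀ u : List ℕ, n0 ≤ u.length + j → ∀ y y' : ℕ → ℕ, Eqv (Fac C) y y' →
      app u y ∈ Om C → app u y' ∈ Om C := by
  obtain ⟨r, V, hV, hos⟩ := one_step h0 hne hD
  intro j
  induction j with
  | zero =>
    intro u hu y y' h hy
    exact hn0 u hu y y' h hy
  | succ j ih =>
    intro u hu y y' h hy
    rw [hos] at hy ⊢
    obtain ⟨h1, h2⟩ := hy
    constructor
    · rw [fi_app md_fac_left] at h1 ⊢
      exact (h _).1 h1
    · intro d hd hc
      refine h2 d hd ?_
      have hd0 : 0 < d.length := List.length_pos_iff.2 (hV d hd)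
      rw [app_app] at hc ⊢
      refine ih (d ++ u) ?_ y' y (md_eqv_symm h) hc
      rw [List.length_append]
      omega

theorem type_det {C : Finset (List ℕ)} (h0 : [] ∉ C) (hne : C.Nonempty) {D : ℕ}
    (hD : BDD C D) {y y' : ℕ → ℕ} (h : Eqv (Fac C) y y') (hy : y ∈ Om C) : y' ∈ Om C := by
  obtain ⟨l0, hl0, hfull⟩ := exists_full C
  obtain ⟨n0, hn0⟩ := local_form h0 hD hl0 hfull
  have key := md_det h0 hne hD (n0 := n0) (by
    intro u hu z z' hz hzu
    have hp : pre (app u z) u.length = u := by
      have := pre_app u z 0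
      simpa [pre] using this
    have h1 := (hn0 (app u z) hzu u.length hu z)
    have h2 := (hn0 (app u z) hzu u.length hu z')
    rw [hp] at h1 h2
    exact h2.2 ((hz _).1 (h1.1 hzu)))
  have := key n0 [] (by simp) y y' h (by rw [app_nil]; exact hy)
  rw [app_nil] at this
  exact this

end Pool.Agent.Helper31.BD
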