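import Mathlib
import Pool.Agent.Helper31.BD.Defs
import Pool.Agent.Helper31.BD.A

set_option autoImplicit false

/-!
# MP_93aa28_lc (bounded delay): module E (the one player game and the bound for the length of the
code words)
-/

namespace Pool.Agent.Helper31.BD

/-- Increasing sequence of subsets of a finite type which stays constant once two consecutive members
agree: it is constant from the index card on. -/
theorem mono_stab {α : Type*} [Fintype α] (S : ℕ → Set α) (h1 : ∀ k, S k ⊆ S (k + 1))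
    (h2 : ∀ k, S k = S (k + 1) → S (k + 1) = S (k + 2)) (k : ℕ) :
    S k ⊆ S (Fintype.card α) := by
  have hmono : Monotone S := monotone_nat_of_le_succ h1
  have key : ∀ j : ℕ, (∃ i < j, S i = S (i + 1)) ∨ j ≤ (S j).ncard := by
    intro j
    induction j with
    | zero => exact Or.inr (Nat.zero_le _)
    | succ j ih =>
      rcases ih with ⟨i, hi, he⟩ | hj
      · exact Or.inl ⟨i, by omega, he⟩
      · by_cases he : S j = S (j + 1)
        · exact Or.inl ⟨j, by omega, he⟩
        · right
          have hss : S j ⊂ S (j + 1) := (h1 j).ssubset_of_ne he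
          have := Set.ncard_lt_ncard hss (Set.toFinite _)
          omega
  have hex : ∃ i ≤ Fintype.card α, S i = S (i + 1) := by
    rcases key (Fintype.card α + 1) with ⟨i, hi, he⟩ | h
    · exact ⟨i, by omega, he⟩
    · exfalso
      have h3 : (S (Fintype.card α + 1)).ncard ≤ Nat.card α := by
        rw [← Set.ncard_univ]
        exact Set.ncard_le_ncard (Set.subset_univ _) (Set.toFinite _)
      rw [Nat.card_eq_fintype_card] at h3
      omega
  obtain ⟨i, hi, he⟩ := hex
  have hstep : ∀ d : ℕ, S (i + d) = S (i + d + 1) := by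
    intro d
    induction d with
    | zero => exact he
    | succ d ih => exact h2 _ ih
  have hconst : ∀ d : ℕ, S (i + d) = S i := by
    intro d
    induction d with
    | zero => rfl
    | succ d ih => rw [← ih]; exact (hstep d).symm
  by_cases hk : k ≤ Fintype.card α
  · exact hmono hk
  · have e1 : S k = S i := by
      have := hconst (k - i)
      rwa [show i + (k - i) = k by omega] at this
    have e2 : S (Fintype.card α) = S i := by
      have := hconst (Fintype.card α - i)
      rwa [show i + (Fintype.card α - i) = Fintype.card α by omega] at this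
    rw [e1, e2]

/-- positions of rank at most k of the one player game -/
def me_Cl (W : Set (ℕ → ℕ)) (n : ℕ) : ℕ → Set (ℕ → ℕ) → Prop
  | 0, G => G = ∅
  | k + 1, G => (∀ a, a < n → me_Cl W n k {y | app [a] y ∈ G}) ∨
      (W ⊆ G ∧ ∀ a, a < n → me_Cl W n k {y | app [a] y ∈ G ∧ app [a] y ∉ W})

theorem me_cl_succ (W : Set (ℕ → ℕ)) (n k : ℕ) : ∀ G, me_Cl W n k G → me_Cl W n (k + 1) G := by
  induction k with
  | zero =>
    intro G h
    have hG : G = ∅ := h
    subst hG
    refine Or.inl (fun a _ => ?_)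
    show {y | app [a] y ∈ (∅ : Set (ℕ → ℕ))} = ∅
    simp
  | succ k ih =>
    intro G h
    rcases h with h | ⟨hW, h⟩
    · exact Or.inl (fun a ha => ih _ (h a ha))
    · exact Or.inr ⟨hW, fun a ha => ih _ (h a ha)⟩

theorem me_app_cons (a : ℕ) (e : List ℕ) (y : ℕ → ℕ) : app (a :: e) y = app [a] (app e y) := by
  rw [app_app]
  rfl

theorem me_app_zero (a : ℕ) (y : ℕ → ℕ) : app [a] y 0 = a := by
  simp [app]

theorem me_app_succ (a : ℕ) (y : ℕ → ℕ) (i : ℕ) : app [a] y (i + 1) = y i := by
  simp [app]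

theorem me_app_single {a a' : ℕ} {y y' : ℕ → ℕ} (h : app [a] y = app [a'] y') :
    a = a' ∧ y = y' := by
  have h0 : a = a' := by
    have := congrFun h 0
    rwa [me_app_zero, me_app_zero] at this
  subst h0
  exact ⟨rfl, app_inj h⟩

theorem me_exists_app (y : ℕ → ℕ) : ∃ z, y = app [y 0] z := by
  refine ⟨fun i => y (i + 1), ?_⟩
  funext i
  cases i with
  | zero => rw [me_app_zero]
  | succ i => rw [me_app_succ]

/-- the set of all words a :: e with a < n and e in the a-th set -/
def me_cons (n : ℕ) (E : ℕ → Finset (List ℕ)) : Finset (List ℕ) :=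
  (Finset.range n).biUnion fun a => (E a).image (List.cons a)

theorem me_mem_cons (n : ℕ) (E : ℕ → Finset (List ℕ)) (c : List ℕ) :
    c ∈ me_cons n E ↔ ∃ a, a < n ∧ ∃ e ∈ E a, a :: e = c := by
  unfold me_cons
  simp only [Finset.mem_biUnion, Finset.mem_range, Finset.mem_image]

/-- (1) a position of rank at most k is a disjoint union of sets eW with short words e -/
theorem me_tree (W : Set (ℕ → ℕ)) (n k : ℕ) : ∀ G : Set (ℕ → ℕ), me_Cl W n k G →
    (∀ y ∈ G, ∀ i, y i < n) →
    ∃ E : Finset (List ℕ), (∀ e ∈ E, ∀ a ∈ e, a < n) ∧ (∀ e ∈ E, e.length < k) ∧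
      (∀ y, y ∈ G ↔ ∃ e ∈ E, ∃ y' ∈ W, y = app e y') ∧
      (∀ e ∈ E, ∀ e' ∈ E, ∀ y ∈ W, ∀ y' ∈ W, app e y = app e' y' → e = e') := by
  induction k with
  | zero =>
    intro G h _
    have hG : G = ∅ := h
    subst hG
    refine ⟨∅, ?_, ?_, ?_, ?_⟩ <;> simp
  | succ k ih =>
    intro G h hG
    rcases h with h | ⟨hW, h⟩
    · have hex : ∀ a : ℕ, ∃ E : Finset (List ℕ), a < n →
          (∀ e ∈ E, ∀ a ∈ e, a < n) ∧ (∀ e ∈ E, e.length < k) ∧
          (∀ y, y ∈ {y | app [a] y ∈ G} ↔ ∃ e ∈ E, ∃ y' ∈ W, y = app e y') ∧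
          (∀ e ∈ E, ∀ e' ∈ E, ∀ y ∈ W, ∀ y' ∈ W, app e y = app e' y' → e = e') := by
        intro a
        by_cases ha : a < n
        · obtain ⟨E, hE⟩ := ih _ (h a ha) (fun y hy i => by
            have := hG _ hy (i + 1)
            rwa [me_app_succ] at this)
          exact ⟨E, fun _ => hE⟩
        · exact ⟨∅, fun h' => absurd h' ha⟩
      choose E hE using hex
      refine ⟨me_cons n E, ?_, ?_, ?_, ?_⟩
      · intro c hc b hb
        obtain ⟨a, ha, e, he, rfl⟩ := (me_mem_cons n E c).1 hc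
        rcases List.mem_cons.1 hb with rfl | hb
        · exact ha
        · exact (hE a ha).1 e he b hb
      · intro c hc
        obtain ⟨a, ha, e, he, rfl⟩ := (me_mem_cons n E c).1 hc
        have := (hE a ha).2.1 e he
        rw [List.length_cons]
        omega
      · intro y
        constructor
        · intro hy
          obtain ⟨z, hz⟩ := me_exists_app y
          have ha : y 0 < n := hG y hy 0
          have hz2 : z ∈ {z | app [y 0] z ∈ G} := by
            show app [y 0] z ∈ G
            rw [← hz]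
            exact hy
          obtain ⟨e, he, y', hy', hzy⟩ := ((hE (y 0) ha).2.2.1 z).1 hz2
          refine ⟨y 0 :: e, (me_mem_cons n E _).2 ⟨y 0, ha, e, he, rfl⟩, y', hy', ?_⟩
          rw [me_app_cons, ← hzy]
          exact hz
        · rintro ⟨c, hc, y', hy', rfl⟩
          obtain ⟨a, ha, e, he, rfl⟩ := (me_mem_cons n E c).1 hc
          rw [me_app_cons]
          exact ((hE a ha).2.2.1 (app e y')).2 ⟨e, he, y', hy', rfl⟩
      · intro c hc c' hc' y hy y' hy' heq
        obtain ⟨a, ha, e, he, rfl⟩ := (me_mem_cons n E c).1 hc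
        obtain ⟨a', ha', e', he', rfl⟩ := (me_mem_cons n E c').1 hc'
        rw [me_app_cons a e, me_app_cons a' e'] at heq
        obtain ⟨h1, h2⟩ := me_app_single heq
        subst h1
        rw [(hE a ha).2.2.2 e he e' he' y hy y' hy' h2]
    · have hex : ∀ a : ℕ, ∃ E : Finset (List ℕ), a < n →
          (∀ e ∈ E, ∀ a ∈ e, a < n) ∧ (∀ e ∈ E, e.length < k) ∧
          (∀ y, y ∈ {y | app [a] y ∈ G ∧ app [a] y ∉ W} ↔ ∃ e ∈ E, ∃ y' ∈ W, y = app e y') ∧
          (∀ e ∈ E, ∀ e' ∈ E, ∀ y ∈ W, ∀ y' ∈ W, app e y = app e' y' → e = e') := by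
        intro a
        by_cases ha : a < n
        · obtain ⟨E, hE⟩ := ih _ (h a ha) (fun y hy i => by
            have := hG _ hy.1 (i + 1)
            rwa [me_app_succ] at this)
          exact ⟨E, fun _ => hE⟩
        · exact ⟨∅, fun h' => absurd h' ha⟩
      choose E hE using hex
      refine ⟨insert [] (me_cons n E), ?_, ?_, ?_, ?_⟩
      · intro c hc b hb
        rcases Finset.mem_insert.1 hc with rfl | hc
        · simp at hb
        · obtain ⟨a, ha, e, he, rfl⟩ := (me_mem_cons n E c).1 hc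
          rcases List.mem_cons.1 hb with rfl | hb
          · exact ha
          · exact (hE a ha).1 e he b hb
      · intro c hc
        rcases Finset.mem_insert.1 hc with rfl | hc
        · simp
        · obtain ⟨a, ha, e, he, rfl⟩ := (me_mem_cons n E c).1 hc
          have := (hE a ha).2.1 e he
          rw [List.length_cons]
          omega
      · intro y
        constructor
        · intro hy
          by_cases hyW : y ∈ W
          · exact ⟨[], Finset.mem_insert_self _ _, y, hyW, (app_nil y).symm⟩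
          · obtain ⟨z, hz⟩ := me_exists_app y
            have ha : y 0 < n := hG y hy 0
            have hz2 : z ∈ {z | app [y 0] z ∈ G ∧ app [y 0] z ∉ W} := by
              show app [y 0] z ∈ G ∧ app [y 0] z ∉ W
              rw [← hz]
              exact ⟨hy, hyW⟩
            obtain ⟨e, he, y', hy', hzy⟩ := ((hE (y 0) ha).2.2.1 z).1 hz2
            refine ⟨y 0 :: e, Finset.mem_insert_of_mem
              ((me_mem_cons n E _).2 ⟨y 0, ha, e, he, rfl⟩), y', hy', ?_⟩
            rw [me_app_cons, ← hzy]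
            exact hz
        · rintro ⟨c, hc, y', hy', rfl⟩
          rcases Finset.mem_insert.1 hc with rfl | hc
          · rw [app_nil]
            exact hW hy'
          · obtain ⟨a, ha, e, he, rfl⟩ := (me_mem_cons n E c).1 hc
            rw [me_app_cons]
            exact (((hE a ha).2.2.1 (app e y')).2 ⟨e, he, y', hy', rfl⟩).1
      · have haux : ∀ c ∈ me_cons n E, ∀ y ∈ W, ∀ y' ∈ W, app c y ≠ app [] y' := by
          intro c hc y hy y' hy' heq
          obtain ⟨a, ha, e, he, rfl⟩ := (me_mem_cons n E c).1 hc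
          have h1 := (((hE a ha).2.2.1 (app e y)).2 ⟨e, he, y, hy, rfl⟩).2
          rw [← me_app_cons, heq, app_nil] at h1
          exact h1 hy'
        intro c hc c' hc' y hy y' hy' heq
        rcases Finset.mem_insert.1 hc with rfl | hc
        · rcases Finset.mem_insert.1 hc' with rfl | hc'
          · rfl
          · exact absurd heq.symm (haux c' hc' y' hy' y hy)
        · rcases Finset.mem_insert.1 hc' with rfl | hc'
          · exact absurd heq (haux c hc y hy y' hy')
          · obtain ⟨a, ha, e, he, rfl⟩ := (me_mem_cons n E c).1 hc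
            obtain ⟨a', ha', e', he', rfl⟩ := (me_mem_cons n E c').1 hc'
            rw [me_app_cons a e, me_app_cons a' e'] at heq
            obtain ⟨h1, h2⟩ := me_app_single heq
            subst h1
            rw [(hE a ha).2.2.2 e he e' he' y hy y' hy' h2]

/-- the type of an infinite word -/
def me_kap (L : Set (List ℕ)) {N : ℕ} (st : List ℕ → Fin N) (y : ℕ → ℕ) : Set (Fin N) :=
  {i | ∃ u, st u = i ∧ y ∈ Fi (quo L u)}

theorem me_kap_of_eqv {L : Set (List ℕ)} {N : ℕ} (st : List ℕ → Fin N) {y y' : ℕ → ℕ}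
    (h : Eqv L y y') : me_kap L st y = me_kap L st y' := by
  ext i
  constructor
  · rintro ⟨u, hu, hy⟩
    exact ⟨u, hu, (h u).1 hy⟩
  · rintro ⟨u, hu, hy⟩
    exact ⟨u, hu, (h u).2 hy⟩

theorem me_fi_congr {L : Set (List ℕ)} {u u' : List ℕ}
    (h : ∀ v, (u ++ v ∈ L ↔ u' ++ v ∈ L)) {y : ℕ → ℕ} (hy : y ∈ Fi (quo L u)) :
    y ∈ Fi (quo L u') := fun k => (h _).1 (hy k)

theorem me_eqv_of_kap {L : Set (List ℕ)} {N : ℕ} {st : List ℕ → Fin N}
    (hst : ∀ u u' : List ℕ, st u = st u' → ∀ v, (u ++ v ∈ L ↔ u' ++ v ∈ L)) {y y' : ℕ → ℕ}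
    (h : me_kap L st y = me_kap L st y') : Eqv L y y' := by
  intro u
  constructor
  · intro hy
    have h1 : st u ∈ me_kap L st y := ⟨u, rfl, hy⟩
    rw [h] at h1
    obtain ⟨u', hu', hy'⟩ := h1
    exact me_fi_congr (hst u' u hu') hy'
  · intro hy
    have h1 : st u ∈ me_kap L st y' := ⟨u, rfl, hy⟩
    rw [← h] at h1
    obtain ⟨u', hu', hy'⟩ := h1
    exact me_fi_congr (hst u' u hu') hy'

theorem me_eqv_app {L : Set (List ℕ)} (hL : ∀ u v : List ℕ, u ++ v ∈ L → u ∈ L)
    {y y' : ℕ → ℕ} (h : Eqv L y y') (v : List ℕ) : Eqv L (app v y) (app v y') := by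
  intro u
  rw [fi_app hL, fi_app hL]
  exact h _

theorem me_eqv_symm {L : Set (List ℕ)} {y y' : ℕ → ℕ} (h : Eqv L y y') : Eqv L y' y :=
  fun u => (h u).symm

/-- a determined set is a preimage of a set of types -/
theorem me_det_preimage {L : Set (List ℕ)} {N : ℕ} {st : List ℕ → Fin N}
    (hst : ∀ u u' : List ℕ, st u = st u' → ∀ v, (u ++ v ∈ L ↔ u' ++ v ∈ L))
    {G : Set (ℕ → ℕ)} (hG : ∀ y y', Eqv L y y' → y ∈ G → y' ∈ G) :
    me_kap L st ⁻¹' (me_kap L st '' G) = G := by
  ext y
  constructor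
  · rintro ⟨z, hz, hzy⟩
    exact hG z y (me_eqv_of_kap hst hzy) hz
  · intro hy
    exact ⟨y, hy, rfl⟩

/-- (3) the rank of a determined position is bounded -/
theorem me_bound {L : Set (List ℕ)} {V : Set (ℕ → ℕ)} {n N : ℕ} {st : List ℕ → Fin N}
    (hL : ∀ u v : List ℕ, u ++ v ∈ L → u ∈ L)
    (hst : ∀ u u' : List ℕ, st u = st u' → ∀ v, (u ++ v ∈ L ↔ u' ++ v ∈ L))
    (hV : ∀ y y', Eqv L y y' → y ∈ V → y' ∈ V)
    {G : Set (ℕ → ℕ)} (hG : ∀ y y', Eqv L y y' → y ∈ G → y' ∈ G) {k : ℕ}
    (hk : me_Cl V n k G) : me_Cl V n (2 ^ (2 ^ N)) G := by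
  classical
  set κ := me_kap L st with hκ
  have hpre : ∀ A : Set (Set (Fin N)), ∀ y y', Eqv L y y' → y ∈ κ ⁻¹' A → y' ∈ κ ⁻¹' A := by
    intro A y y' h hy
    have h1 : κ y = κ y' := me_kap_of_eqv st h
    show κ y' ∈ A
    rw [← h1]
    exact hy
  have hd : ∀ (A : Set (Set (Fin N))) (a : ℕ), ∃ B : Set (Set (Fin N)),
      κ ⁻¹' B = {y | app [a] y ∈ κ ⁻¹' A} := by
    intro A a
    refine ⟨_, me_det_preimage hst (G := {y | app [a] y ∈ κ ⁻¹' A}) ?_⟩
    intro y y' h hy
    exact hpre A _ _ (me_eqv_app hL h [a]) hy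
  have he : ∀ (A : Set (Set (Fin N))) (a : ℕ), ∃ B : Set (Set (Fin N)),
      κ ⁻¹' B = {y | app [a] y ∈ κ ⁻¹' A ∧ app [a] y ∉ V} := by
    intro A a
    refine ⟨_, me_det_preimage hst (G := {y | app [a] y ∈ κ ⁻¹' A ∧ app [a] y ∉ V}) ?_⟩
    intro y y' h hy
    refine ⟨hpre A _ _ (me_eqv_app hL h [a]) hy.1, fun h' => hy.2 ?_⟩
    exact hV _ _ (me_eqv_symm (me_eqv_app hL h [a])) h'
  choose dd hdd using hd
  choose ee hee using he
  set S : ℕ → Set (Set (Set (Fin N))) := fun k => {A | me_Cl V n k (κ ⁻¹' A)} with hS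
  have hstep : ∀ k A, A ∈ S (k + 1) ↔ ((∀ a, a < n → dd A a ∈ S k) ∨
      (V ⊆ κ ⁻¹' A ∧ ∀ a, a < n → ee A a ∈ S k)) := by
    intro k A
    show ((∀ a, a < n → me_Cl V n k {y | app [a] y ∈ κ ⁻¹' A}) ∨
      (V ⊆ κ ⁻¹' A ∧ ∀ a, a < n → me_Cl V n k {y | app [a] y ∈ κ ⁻¹' A ∧ app [a] y ∉ V})) ↔ _
    simp only [← hdd, ← hee]
    rfl
  have h1 : ∀ k, S k ⊆ S (k + 1) := fun k A hA => me_cl_succ V n k _ hA
  have h2 : ∀ k, S k = S (k + 1) → S (k + 1) = S (k + 2) := by
    intro k h
    ext A
    rw [hstep k A, hstep (k + 1) A, ← h]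
  have h3 := mono_stab S h1 h2 k
  have h4 : κ '' G ∈ S k := by
    show me_Cl V n k (κ ⁻¹' (κ '' G))
    rw [me_det_preimage hst hG]
    exact hk
  have h5 := h3 h4
  have h6 : Fintype.card (Set (Set (Fin N))) = 2 ^ (2 ^ N) := by
    rw [Fintype.card_set, Fintype.card_set, Fintype.card_fin]
  rw [h6] at h5
  have h7 : me_Cl V n (2 ^ (2 ^ N)) (κ ⁻¹' (κ '' G)) := h5
  rw [me_det_preimage hst hG] at h7
  exact h7

/-- the position after the word u -/
def me_G (C : Finset (List ℕ)) (u : List ℕ) : Set (ℕ → ℕ) :=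
  {y | app u y ∈ Om C ∧ ∀ c ∈ C, ∀ t : List ℕ, u = c ++ t → t ≠ [] → app t y ∉ Om C}

/-- (2) the rank of the position after the word u -/
theorem me_rank {C : Finset (List ℕ)} {n m : ℕ} (h0 : [] ∉ C)
    (hm : ∀ c ∈ C, c.length ≤ m)
    (hup : ∀ c ∈ C, ∀ c' ∈ C, ∀ y ∈ Om C, ∀ y' ∈ Om C, app c y = app c' y' → c = c') :
    ∀ (k : ℕ) (u : List ℕ), m + 1 ≤ u.length + k → me_Cl (Om C) n k (me_G C u) := by
  intro k
  induction k with
  | zero =>
    intro u hu
    show me_G C u = ∅
    rw [Set.eq_empty_iff_forall_notMem]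
    rintro y ⟨hy1, hy2⟩
    obtain ⟨c, hc, y', hy', he⟩ := om_step h0 hy1
    have hlen := hm c hc
    obtain ⟨t, ht, hyt⟩ := app_split he.symm (by omega)
    refine hy2 c hc t ht ?_ (hyt ▸ hy')
    rintro rfl
    rw [ht, List.append_nil] at hu
    omega
  | succ k ih =>
    intro u hu
    have hset : ∀ a, me_G C (u ++ [a]) =
        {y | app [a] y ∈ me_G C u ∧ (u ∈ C → app [a] y ∉ Om C)} := by
      intro a
      ext y
      constructor
      · rintro ⟨h1, h2⟩
        refine ⟨⟨?_, ?_⟩, ?_⟩
        · rw [app_app]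
          exact h1
        · intro c hc t ht hne
          rw [app_app]
          refine h2 c hc (t ++ [a]) ?_ (by simp)
          rw [ht, List.append_assoc]
        · intro huC
          exact h2 u huC [a] rfl (by simp)
      · rintro ⟨⟨h1, h2⟩, h3⟩
        refine ⟨?_, ?_⟩
        · rw [app_app] at h1
          exact h1
        · intro c hc t ht hne
          rcases List.eq_nil_or_concat' t with rfl | ⟨t', b, rfl⟩
          · exact absurd rfl hne
          · rw [← List.append_assoc] at ht
            obtain ⟨e1, e2⟩ := List.append_inj' ht rfl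
            have e3 : a = b := by simpa using e2
            subst e3
            by_cases ht' : t' = []
            · subst ht'
              rw [List.append_nil] at e1
              rw [List.nil_append]
              exact h3 (e1 ▸ hc)
            · have := h2 c hc t' e1 ht'
              rw [app_app] at this
              exact this
    by_cases huC : u ∈ C
    · right
      refine ⟨?_, ?_⟩
      · intro y hy
        refine ⟨?_, ?_⟩
        · have := om_app (C := C) (l := [u]) (by
            intro c hc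
            rw [List.mem_singleton] at hc
            exact hc ▸ huC) hy
          simpa using this
        · intro c hc t ht hne hty
          have h1 : app u y = app c (app t y) := by rw [app_app, ← ht]
          have h2 := hup u huC c hc y hy (app t y) hty h1
          apply hne
          have h3 : u.length = c.length + t.length := by rw [ht, List.length_append]
          rw [h2] at h3
          exact List.length_eq_zero_iff.1 (by omega)
      · intro a _
        have h1 := ih (u ++ [a]) (by rw [List.length_append, List.length_singleton]; omega)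
        rw [hset a] at h1
        simp only [huC, true_implies] at h1
        exact h1
    · left
      intro a _
      have h1 := ih (u ++ [a]) (by rw [List.length_append, List.length_singleton]; omega)
      rw [hset a] at h1
      simp only [huC, false_implies, and_true] at h1
      exact h1

/-- the letters of infinite products -/
theorem me_letters {C : Finset (List ℕ)} {n : ℕ} (hn : ∀ c ∈ C, ∀ a ∈ c, a < n)
    {y : ℕ → ℕ} (hy : y ∈ Om C) (i : ℕ) : y i < n := by
  obtain ⟨l, hl, hpre⟩ := hy (i + 1)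
  have h1 : y i ∈ pre y (i + 1) := by
    unfold pre
    rw [List.mem_map]
    exact ⟨i, List.mem_range.2 (by omega), rfl⟩
  have h2 := hpre.subset h1
  obtain ⟨c, hc, hi⟩ := List.mem_flatten.1 h2
  exact hn c (hl c hc) _ hi

theorem short_code {C : Finset (List ℕ)} {n N : ℕ} (h0 : [] ∉ C)
    (hn : ∀ c ∈ C, ∀ a ∈ c, a < n) (hfew : Few (Fac C) N)
    (hup : ∀ c ∈ C, ∀ c' ∈ C, ∀ y ∈ Om C, ∀ y' ∈ Om C, app c y = app c' y' → c = c')
    (hdet : ∀ y y' : ℕ → ℕ, Eqv (Fac C) y y' → y ∈ Om C → y' ∈ Om C) :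
    ∃ C' : Finset (List ℕ), [] ∉ C' ∧ (∀ c ∈ C', ∀ a ∈ c, a < n) ∧
      (∀ c ∈ C', c.length ≤ 2 ^ (2 ^ N)) ∧
      (∀ y, y ∈ Om C ↔ ∃ c ∈ C', ∃ y' ∈ Om C, y = app c y') ∧
      (∀ c ∈ C', ∀ c' ∈ C', ∀ y ∈ Om C, ∀ y' ∈ Om C, app c y = app c' y' → c = c') := by
  obtain ⟨st, hst⟩ := hfew
  have hL : ∀ u v : List ℕ, u ++ v ∈ Fac C → u ∈ Fac C := by
    intro u v h
    have h1 : [] ++ u ++ v ∈ Fac C := by
      rw [List.nil_append]
      exact h
    exact fac_infix h1
  have hm : ∃ m, ∀ c ∈ C, c.length ≤ m := by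
    refine ⟨C.sup List.length, fun c hc => Finset.le_sup (f := List.length) hc⟩
  obtain ⟨m, hm⟩ := hm
  have hG1 : ∀ a, me_G C [a] = {y | app [a] y ∈ Om C} := by
    intro a
    ext y
    constructor
    · rintro ⟨h1, _⟩
      exact h1
    · intro h1
      refine ⟨h1, ?_⟩
      intro c hc t ht hne
      exfalso
      have h2 : c.length + t.length = 1 := by
        have := congrArg List.length ht
        rw [List.length_append, List.length_singleton] at this
        omega
      have h3 : 0 < t.length := List.length_pos_iff.2 hne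
      have h4 : c = [] := List.length_eq_zero_iff.1 (by omega)
      exact h0 (h4 ▸ hc)
  have hcl : ∀ a, me_Cl (Om C) n (2 ^ (2 ^ N)) {y | app [a] y ∈ Om C} := by
    intro a
    have h1 := me_rank (n := n) h0 hm hup m [a] (by rw [List.length_singleton]; omega)
    rw [hG1 a] at h1
    refine me_bound hL hst hdet ?_ h1
    intro y y' h hy
    exact hdet _ _ (me_eqv_app hL h [a]) hy
  have hex : ∀ a : ℕ, ∃ E : Finset (List ℕ),
      (∀ e ∈ E, ∀ b ∈ e, b < n) ∧ (∀ e ∈ E, e.length < 2 ^ (2 ^ N)) ∧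
      (∀ y, y ∈ {y | app [a] y ∈ Om C} ↔ ∃ e ∈ E, ∃ y' ∈ Om C, y = app e y') ∧
      (∀ e ∈ E, ∀ e' ∈ E, ∀ y ∈ Om C, ∀ y' ∈ Om C, app e y = app e' y' → e = e') := by
    intro a
    refine me_tree (Om C) n _ _ (hcl a) ?_
    intro y hy i
    have := me_letters hn hy (i + 1)
    rwa [me_app_succ] at this
  choose E hE using hex
  refine ⟨me_cons n E, ?_, ?_, ?_, ?_, ?_⟩
  · intro h
    obtain ⟨a, _, e, _, he⟩ := (me_mem_cons n E _).1 h
    exact absurd he (by simp)
  · intro c hc b hb
    obtain ⟨a, ha, e, he, rfl⟩ := (me_mem_cons n E c).1 hc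
    rcases List.mem_cons.1 hb with rfl | hb
    · exact ha
    · exact (hE a).1 e he b hb
  · intro c hc
    obtain ⟨a, ha, e, he, rfl⟩ := (me_mem_cons n E c).1 hc
    have := (hE a).2.1 e he
    rw [List.length_cons]
    omega
  · intro y
    constructor
    · intro hy
      obtain ⟨z, hz⟩ := me_exists_app y
      have ha : y 0 < n := me_letters hn hy 0
      have hz2 : z ∈ {z | app [y 0] z ∈ Om C} := by
        show app [y 0] z ∈ Om C
        rw [← hz]
        exact hy
      obtain ⟨e, he, y', hy', hzy⟩ := ((hE (y 0)).2.2.1 z).1 hz2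
      refine ⟨y 0 :: e, (me_mem_cons n E _).2 ⟨y 0, ha, e, he, rfl⟩, y', hy', ?_⟩
      rw [me_app_cons, ← hzy]
      exact hz
    · rintro ⟨c, hc, y', hy', rfl⟩
      obtain ⟨a, ha, e, he, rfl⟩ := (me_mem_cons n E c).1 hc
      rw [me_app_cons]
      exact ((hE a).2.2.1 (app e y')).2 ⟨e, he, y', hy', rfl⟩
  · intro c hc c' hc' y hy y' hy' heq
    obtain ⟨a, ha, e, he, rfl⟩ := (me_mem_cons n E c).1 hc
    obtain ⟨a', ha', e', he', rfl⟩ := (me_mem_cons n E c').1 hc'
    rw [me_app_cons a e, me_app_cons a' e'] at heq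
    obtain ⟨h1, h2⟩ := me_app_single heq
    subst h1
    rw [(hE a).2.2.2 e he e' he' y hy y' hy' h2]

end Pool.Agent.Helper31.BD
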