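import Mathlib
import Pool.Agent.Helper31.BD.Defs
import Pool.Agent.Helper31.BD.A

set_option autoImplicit false

/-!
# MP_93aa28_lc (bounded delay): module F (the new code generates the same factor set)
-/

namespace Pool.Agent.Helper31.BD

/-- the first letters of an infinite word with a given beginning -/
theorem mf_pre_eq {w u : List ℕ} {y z : ℕ → ℕ} {k : ℕ} (hw : w = pre y k) (h : w <+: u) :
    pre y k = pre (app u z) k := by
  have hk : k ≤ u.length := by
    have h1 := h.length_le
    rw [hw, pre_length] at h1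
    exact h1
  have h2 : pre (app u z) k <+: u := by
    have h3 := pre_add (app u z) k (u.length - k)
    have h4 : k + (u.length - k) = u.length + 0 := by omega
    rw [h4, pre_app] at h3
    simpa [pre] using h3
  rw [hw] at h
  have h5 : (pre y k).length ≤ (pre (app u z) k).length := by rw [pre_length, pre_length]
  have h6 := List.prefix_of_prefix_length_le h h2 h5
  exact h6.eq_of_length (by rw [pre_length, pre_length])

/-- products over C' of elements of Om C -/
theorem mf_iter {C C' : Finset (List ℕ)}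
    (h : ∀ y, y ∈ Om C ↔ ∃ c ∈ C', ∃ y' ∈ Om C, y = app c y') :
    ∀ l : List (List ℕ), Over C' l → ∀ z ∈ Om C, app l.flatten z ∈ Om C := by
  intro l
  induction l with
  | nil =>
    intro _ z hz
    rw [List.flatten_nil, app_nil]
    exact hz
  | cons c l ih =>
    intro hl z hz
    rw [List.flatten_cons, ← app_app]
    refine (h _).2 ⟨c, hl c List.mem_cons_self, _, ih (fun e he => hl e (List.mem_cons_of_mem _ he)) z hz, rfl⟩

/-- parsing k words over C' -/
theorem mf_parse {C C' : Finset (List ℕ)} (h0' : [] ∉ C')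
    (h : ∀ y, y ∈ Om C ↔ ∃ c ∈ C', ∃ y' ∈ Om C, y = app c y') :
    ∀ (k : ℕ), ∀ y ∈ Om C, ∃ l : List (List ℕ), Over C' l ∧ k ≤ l.flatten.length ∧
      ∃ y' ∈ Om C, y = app l.flatten y' := by
  intro k
  induction k with
  | zero =>
    intro y hy
    refine ⟨[], ?_, Nat.zero_le _, y, hy, ?_⟩
    · intro c hc
      exact absurd hc List.not_mem_nil
    · rw [List.flatten_nil, app_nil]
  | succ k ih =>
    intro y hy
    obtain ⟨c, hc, y1, hy1, rfl⟩ := (h y).1 hy
    obtain ⟨l, hl, hlen, y2, hy2, rfl⟩ := ih y1 hy1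
    refine ⟨c :: l, ?_, ?_, y2, hy2, ?_⟩
    · intro e he
      rcases List.mem_cons.1 he with rfl | he
      · exact hc
      · exact hl e he
    · have hcne : c ≠ [] := fun h => h0' (h ▸ hc)
      have hclen : 0 < c.length := List.length_pos_iff.2 hcne
      rw [List.flatten_cons, List.length_append]
      omega
    · rw [List.flatten_cons, ← app_app]

theorem om_le {C C' : Finset (List ℕ)} (h0 : [] ∉ C) (h0' : [] ∉ C') (hne : C.Nonempty)
    (h : ∀ y, y ∈ Om C ↔ ∃ c ∈ C', ∃ y' ∈ Om C, y = app c y') : Om C' = Om C := by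
  ext y
  constructor
  · intro hy
    obtain ⟨z0, hz0⟩ := om_nonempty h0 hne
    refine om_closed (fun k => ?_)
    obtain ⟨l, hl, hp⟩ := hy k
    exact ⟨app l.flatten z0, mf_iter h l hl z0 hz0, mf_pre_eq rfl hp⟩
  · intro hy k
    obtain ⟨l, hl, hlen, y', hy', rfl⟩ := mf_parse h0' h k y hy
    refine ⟨l, hl, ?_⟩
    have h3 := pre_add (app l.flatten y') k (l.flatten.length - k)
    have h4 : k + (l.flatten.length - k) = l.flatten.length + 0 := by omega
    rw [h4, pre_app] at h3
    simpa [pre] using h3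

/-- factors in terms of prefixes -/
theorem mf_fac {C : Finset (List ℕ)} (w : List ℕ) : w ∈ Fac C ↔ ∃ u, u ++ w ∈ Pf C := by
  constructor
  · rintro ⟨u, v, l, hl, he⟩
    exact ⟨u, l, hl, v, he⟩
  · rintro ⟨u, l, hl, v, he⟩
    exact ⟨u, v, l, hl, he⟩

theorem fac_eq {C C' : Finset (List ℕ)} (h0 : [] ∉ C) (h0' : [] ∉ C') (hne : C.Nonempty)
    (h : ∀ y, y ∈ Om C ↔ ∃ c ∈ C', ∃ y' ∈ Om C, y = app c y') : Fac C' = Fac C := by
  have hom := om_le h0 h0' hne h
  have hne' : C'.Nonempty := by
    obtain ⟨z0, hz0⟩ := om_nonempty h0 hne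
    obtain ⟨c, hc, _⟩ := (h z0).1 hz0
    exact ⟨c, hc⟩
  have hpf : ∀ w, w ∈ Pf C' ↔ w ∈ Pf C := by
    intro w
    rw [pf_iff_om h0' hne', pf_iff_om h0 hne, hom]
  ext w
  rw [mf_fac, mf_fac]
  constructor
  · rintro ⟨u, hu⟩
    exact ⟨u, (hpf _).1 hu⟩
  · rintro ⟨u, hu⟩
    exact ⟨u, (hpf _).2 hu⟩

/-- unique parses of infinite words give unique factorisation -/
theorem up_ud {C : Finset (List ℕ)} (h0 : [] ∉ C)
    (hup : ∀ c ∈ C, ∀ c' ∈ C, ∀ y ∈ Om C, ∀ y' ∈ Om C, app c y = app c' y' → c = c') :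
    UD C := by
  intro l1
  induction l1 with
  | nil =>
    intro l2 _ hl2 he
    cases l2 with
    | nil => rfl
    | cons c l =>
      exfalso
      have hc : c ∈ C := hl2 c List.mem_cons_self
      rw [List.flatten_nil, List.flatten_cons] at he
      have h1 := (List.append_eq_nil_iff.1 he.symm).1
      exact h0 (h1 ▸ hc)
  | cons c l1 ih =>
    intro l2 hl1 hl2 he
    have hc : c ∈ C := hl1 c List.mem_cons_self
    cases l2 with
    | nil =>
      exfalso
      rw [List.flatten_nil, List.flatten_cons] at he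
      have h1 := (List.append_eq_nil_iff.1 he).1
      exact h0 (h1 ▸ hc)
    | cons c' l2 =>
      have hc' : c' ∈ C := hl2 c' List.mem_cons_self
      have ho1 : Over C l1 := fun e he' => hl1 e (List.mem_cons_of_mem _ he')
      have ho2 : Over C l2 := fun e he' => hl2 e (List.mem_cons_of_mem _ he')
      obtain ⟨z, hz⟩ := om_nonempty h0 ⟨c, hc⟩
      have h1 : app c (app l1.flatten z) = app c' (app l2.flatten z) := by
        rw [app_app, app_app, ← List.flatten_cons, ← List.flatten_cons, he]
      have h2 : c = c' := hup c hc c' hc' _ (om_app ho1 hz) _ (om_app ho2 hz) h1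
      subst h2
      rw [List.flatten_cons, List.flatten_cons] at he
      have h3 := List.append_cancel_left he
      rw [ih l2 ho1 ho2 h3]

end Pool.Agent.Helper31.BD
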