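import Mathlib
import Pool.Agent.Helper31.BD.Defs
import Pool.Agent.Helper31.BD.A

set_option autoImplicit false

/-!
# MP_93aa28_lc (bounded delay): module G (long double parses can be pumped)
-/

namespace Pool.Agent.Helper31.BD

/-- the periodic infinite word -/
def mg_per (U : List ℕ) : ℕ → ℕ := fun i => U.getD (i % U.length) 0

theorem mg_per_eq {U : List ℕ} (hU : U ≠ []) : mg_per U = app U (mg_per U) := by
  have h0 : 0 < U.length := List.length_pos_iff.2 hU
  funext i
  unfold app
  by_cases h : i < U.length
  · rw [if_pos h]
    simp only [mg_per]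
    rw [Nat.mod_eq_of_lt h]
  · rw [if_neg h]
    simp only [mg_per]
    rw [← Nat.mod_eq_sub_mod (not_lt.1 h)]

theorem mg_fix_unique {U : List ℕ} (hU : U ≠ []) {x z : ℕ → ℕ} (hx : x = app U x)
    (hz : z = app U z) : x = z := by
  have h0 : 0 < U.length := List.length_pos_iff.2 hU
  funext i
  induction i using Nat.strong_induction_on with
  | _ i ih =>
    rw [hx, hz]
    unfold app
    by_cases h : i < U.length
    · rw [if_pos h, if_pos h]
    · rw [if_neg h, if_neg h]
      exact ih _ (by omega)

theorem mg_per_om {C : Finset (List ℕ)} {m : List (List ℕ)} (hm : Over C m)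
    (hU : m.flatten ≠ []) : mg_per m.flatten ∈ Om C := by
  have h0 : 0 < m.flatten.length := List.length_pos_iff.2 hU
  have hrep : ∀ n, ∃ l : List (List ℕ), Over C l ∧
      pre (mg_per m.flatten) (n * m.flatten.length) = l.flatten := by
    intro n
    induction n with
    | zero =>
      refine ⟨[], ?_, ?_⟩
      · intro d hd
        simp at hd
      · simp [pre]
    | succ n ih =>
      obtain ⟨l, hl, hle⟩ := ih
      refine ⟨m ++ l, ma_over_append hm hl, ?_⟩
      rw [Nat.succ_mul, Nat.add_comm, List.flatten_append, ← hle]
      conv_lhs => rw [mg_per_eq hU]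
      exact pre_app m.flatten (mg_per m.flatten) (n * m.flatten.length)
  intro k
  obtain ⟨l, hl, he⟩ := hrep k
  refine ⟨l, hl, ?_⟩
  rw [← he]
  exact ma_pre_mono _ (Nat.le_mul_of_pos_right _ h0)

theorem mg_cover {C : Finset (List ℕ)} : ∀ (L : List (List ℕ)), Over C L → ∀ s : List ℕ, s ≠ [] →
    s <+: L.flatten → ∃ k : ℕ, ∃ e ∈ C, ∃ t : ℕ, t < e.length + 1 ∧
      s ++ e.drop t = (L.take (k + 1)).flatten := by
  intro L
  induction L with
  | nil =>
    intro _ s hs hp
    exact absurd (List.prefix_nil.1 hp) hs
  | cons a L ih =>
    intro hL s hs hp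
    obtain ⟨ha, hL'⟩ := ma_over_cons.1 hL
    rw [List.flatten_cons] at hp
    by_cases h : s.length ≤ a.length
    · have h1 : s <+: a := List.prefix_of_prefix_length_le hp (List.prefix_append _ _) h
      refine ⟨0, a, ha, s.length, by omega, ?_⟩
      obtain ⟨v, rfl⟩ := h1
      simp
    · have h1 : a <+: s :=
        List.prefix_of_prefix_length_le (List.prefix_append _ _) hp (by omega)
      obtain ⟨s', rfl⟩ := h1
      have hs' : s' ≠ [] := by
        rintro rfl
        simp at h
      obtain ⟨k, e, he, t, ht, hk⟩ := ih hL' s' hs' ((List.prefix_append_right_inj _).1 hp)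
      refine ⟨k + 1, e, he, t, ht, ?_⟩
      rw [List.take_succ_cons, List.flatten_cons, List.append_assoc, hk]

theorem mg_take_split (m : List (List ℕ)) {i j : ℕ} (h : i ≤ j) :
    (m.take j).flatten = (m.take i).flatten ++ ((m.take j).drop i).flatten := by
  have h1 : m.take i = (m.take j).take i := by
    rw [List.take_take, min_eq_left h]
  rw [h1, ← List.flatten_append, List.take_append_drop]

theorem mg_over_sub {C : Finset (List ℕ)} {m : List (List ℕ)} (hm : Over C m) (i j : ℕ) :
    Over C ((m.take j).drop i) := fun c hc =>
  hm c (List.mem_of_mem_take (List.mem_of_mem_drop hc))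

theorem mg_over_take {C : Finset (List ℕ)} {m : List (List ℕ)} (hm : Over C m) (j : ℕ) :
    Over C (m.take j) := fun c hc => hm c (List.mem_of_mem_take hc)

theorem mg_main {C : Finset (List ℕ)} {c c' : List ℕ}
    {l l' : List (List ℕ)} (h0 : [] ∉ C) (hl : Over C l) (hl' : Over C l') {i j k k' : ℕ}
    (hij : i < j) (hj : j ≤ l.length) {r : List ℕ}
    (h1 : (c :: l.take i).flatten ++ r = (c' :: l'.take k).flatten)
    (h2 : (c :: l.take j).flatten ++ r = (c' :: l'.take k').flatten) :
    ∃ y ∈ Om C, ∃ y' ∈ Om C, app c y = app c' y' := by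
  set U := ((l.take j).drop i).flatten with hU
  have hUne : U ≠ [] := by
    intro h
    have hne : ((l.take j).drop i) ≠ [] := by
      intro h3
      have h4 := congrArg List.length h3
      rw [List.length_drop, List.length_take, List.length_nil] at h4
      omega
    obtain ⟨a, ha⟩ := List.exists_mem_of_ne_nil _ hne
    have h5 := (List.flatten_eq_nil_iff.1 (hU ▸ h)) a ha
    exact h0 (h5 ▸ mg_over_sub hl i j a ha)
  have hsj : (c :: l.take j).flatten = (c :: l.take i).flatten ++ U := by
    rw [List.flatten_cons, List.flatten_cons, mg_take_split l hij.le, List.append_assoc]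
  have hkk : k ≤ k' := by
    by_contra hcon
    have h3 := mg_take_split l' (not_le.1 hcon).le
    have h4 := congrArg List.length h1
    have h5 := congrArg List.length h2
    have h6 := List.length_pos_iff.2 hUne
    have h7 := congrArg List.length h3
    have h8 := congrArg List.length hsj
    simp only [List.flatten_cons, List.length_append] at h4 h5 h7 h8
    omega
  set M := ((l'.take k').drop k).flatten with hM
  have hUr : U ++ r = r ++ M := by
    have h3 : (c :: l.take i).flatten ++ (U ++ r) = (c :: l.take i).flatten ++ (r ++ M) := by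
      rw [← List.append_assoc, ← hsj, h2, ← List.append_assoc, h1, List.flatten_cons,
        List.flatten_cons, mg_take_split l' hkk, List.append_assoc]
    exact List.append_cancel_left h3
  have hMne : M ≠ [] := by
    intro h
    have h3 := congrArg List.length hUr
    have h4 := List.length_pos_iff.2 hUne
    rw [h] at h3
    simp only [List.length_append, List.length_nil] at h3
    omega
  have hz : mg_per U = app r (mg_per M) := by
    refine mg_fix_unique hUne (mg_per_eq hUne) ?_
    rw [app_app, hUr, ← app_app, ← mg_per_eq hMne]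
  have hzU : mg_per U ∈ Om C := mg_per_om (mg_over_sub hl i j) hUne
  have hzM : mg_per M ∈ Om C := mg_per_om (mg_over_sub hl' k k') hMne
  refine ⟨app (l.take i).flatten (mg_per U), om_app (mg_over_take hl i) hzU,
    app (l'.take k).flatten (mg_per M), om_app (mg_over_take hl' k) hzM, ?_⟩
  rw [app_app, app_app, ← List.flatten_cons, ← List.flatten_cons, hz, app_app, h1]

/-- Let s_i be the flattening of c :: l.take i and let r_i be the word such that s_i ++ r_i is the
flattening of c' :: l'.take k, k minimal with length at least that of s_i (it exists since s_i is a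
prefix of (c' :: l').flatten).  The r_i are suffixes of words of C, there are at most
the sum of (c.length + 1) over C suffixes, and there are l.length + 1 indices i, so r_i = r_j
for some i < j.  Let u be the flattening of the part of l between i and j (nonempty word) and m the
part of l' between the two values of k: then u ++ r = r ++ m.flatten.  The infinite word s_i u u u ...
is app c y with y in Om C and also app c' y' with y' in Om C. -/
theorem pump {C : Finset (List ℕ)} (h0 : [] ∉ C) {c c' : List ℕ} (hc : c ∈ C) (hc' : c' ∈ C)
    {l l' : List (List ℕ)} (hl : Over C l) (hl' : Over C l')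
    (hlen : ∑ e ∈ C, (e.length + 1) ≤ l.length)
    (hpre : (c :: l).flatten <+: (c' :: l').flatten) :
    ∃ y ∈ Om C, ∃ y' ∈ Om C, app c y = app c' y' := by
  have hcne : c ≠ [] := fun h => h0 (h ▸ hc)
  have key : ∀ i : ℕ, ∃ p : ℕ × (Σ _ : List ℕ, ℕ), p.2 ∈ C.sigma (fun e => Finset.range (e.length + 1)) ∧
      (c :: l.take i).flatten ++ p.2.1.drop p.2.2 = (c' :: l'.take p.1).flatten := by
    intro i
    have h1 : (c :: l.take i).flatten <+: (c' :: l').flatten := by
      refine List.IsPrefix.trans ?_ hpre
      rw [List.flatten_cons, List.flatten_cons, List.prefix_append_right_inj]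
      refine ⟨(l.drop i).flatten, ?_⟩
      rw [← List.flatten_append, List.take_append_drop]
    have h2 : (c :: l.take i).flatten ≠ [] := by
      rw [List.flatten_cons]
      intro h
      exact hcne (List.append_eq_nil_iff.1 h).1
    obtain ⟨k, e, he, t, ht, hk⟩ := mg_cover (c' :: l') (ma_over_cons.2 ⟨hc', hl'⟩) _ h2 h1
    refine ⟨(k, ⟨e, t⟩), ?_, ?_⟩
    · simp only [Finset.mem_sigma, Finset.mem_range]
      exact ⟨he, ht⟩
    · simpa using hk
  choose p hp1 hp2 using key
  have hcard : (C.sigma (fun e => Finset.range (e.length + 1))).card <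
      (Finset.range (l.length + 1)).card := by
    rw [Finset.card_sigma, Finset.card_range]
    simp only [Finset.card_range]
    omega
  obtain ⟨i, hi, j, hj, hne, heq⟩ := Finset.exists_ne_map_eq_of_card_lt_of_maps_to hcard
    (f := fun i => (p i).2) (fun i _ => hp1 i)
  have heq' : (p i).2 = (p j).2 := heq
  rcases lt_or_gt_of_ne hne with h | h
  · refine mg_main h0 hl hl' h (by have := Finset.mem_range.1 hj; omega) (hp2 i) ?_
      (k' := (p j).1)
    rw [heq']
    exact hp2 j
  · refine mg_main h0 hl hl' h (by have := Finset.mem_range.1 hi; omega) (hp2 j) ?_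
      (k' := (p i).1)
    rw [← heq']
    exact hp2 i

end Pool.Agent.Helper31.BD
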