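import Mathlib
import Pool.Agent.Helper31.BD.Defs

set_option autoImplicit false

/-!
# MP_93aa28_lc (bounded delay): module H (two regular languages that differ, differ on a short word)
-/

namespace Pool.Agent.Helper31.BD

/-- the set of suffixes of the words -/
def mh_suf (C : Finset (List ℕ)) : Finset (List ℕ) := C.biUnion fun c => c.tails.toFinset

theorem mh_suf_card (C : Finset (List ℕ)) : (mh_suf C).card ≤ ∑ e ∈ C, (e.length + 1) := by
  unfold mh_suf
  refine Finset.card_biUnion_le.trans ?_
  refine Finset.sum_le_sum ?_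
  intro e _
  refine (List.toFinset_card_le _).trans ?_
  rw [List.length_tails]

theorem mh_mem_suf {C : Finset (List ℕ)} {c t : List ℕ} (hc : c ∈ C) (ht : t <:+ c) :
    t ∈ mh_suf C := by
  unfold mh_suf
  rw [Finset.mem_biUnion]
  exact ⟨c, hc, by simpa using ht⟩

theorem mh_cut {C : Finset (List ℕ)} (hne : C.Nonempty) :
    ∀ (l : List (List ℕ)) (u s : List ℕ), Over C l → u ++ s = l.flatten →
      ∃ l1 l2 : List (List ℕ), ∃ t ∈ mh_suf C, Over C l1 ∧ Over C l2 ∧
        l1.flatten = u ++ t ∧ s = t ++ l2.flatten := by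
  obtain ⟨c0, hc0⟩ := hne
  have hnil : ([] : List ℕ) ∈ mh_suf C := mh_mem_suf hc0 (List.nil_suffix)
  intro l
  induction l with
  | nil =>
    intro u s _ h
    have h1 : u ++ s = [] := by simpa using h
    obtain ⟨hu, hs⟩ := List.append_eq_nil_iff.mp h1
    subst hu; subst hs
    exact ⟨[], [], [], hnil, fun c hc => by simp at hc, fun c hc => by simp at hc, rfl, rfl⟩
  | cons c l ih =>
    intro u s hl h
    have hcC : c ∈ C := hl c (by simp)
    have hl' : Over C l := fun e he => hl e (by simp [he])
    rw [List.flatten_cons] at h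
    rcases List.append_eq_append_iff.mp h with ⟨t, h1, h2⟩ | ⟨u', h1, h2⟩
    · -- c = u ++ t, s = t ++ l.flatten
      refine ⟨[c], l, t, mh_mem_suf hcC ⟨u, h1.symm⟩, ?_, hl', ?_, h2⟩
      · intro e he
        rw [List.mem_singleton] at he
        rw [he]; exact hcC
      · simpa using h1
    · -- u = c ++ u', l.flatten = u' ++ s
      obtain ⟨l1, l2, t, ht, ho1, ho2, h3, h4⟩ := ih u' s hl' h2.symm
      refine ⟨c :: l1, l2, t, ht, ?_, ho2, ?_, h4⟩
      · intro e he
        rcases List.mem_cons.mp he with he | he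
        · rw [he]; exact hcC
        · exact ho1 e he
      · rw [List.flatten_cons, h3, h1, List.append_assoc]

open Classical in
/-- the set of possible completions -/
noncomputable def mh_T (C : Finset (List ℕ)) (v : List ℕ) : Finset (List ℕ) :=
  (mh_suf C).filter fun t => ∃ p : List ℕ, ∃ l : List (List ℕ), Over C l ∧ p ++ v ++ t = l.flatten

theorem mh_fac_append {C : Finset (List ℕ)} (hne : C.Nonempty) (v w : List ℕ) :
    v ++ w ∈ Fac C ↔
      ∃ t ∈ mh_T C v, ∃ l' : List (List ℕ), Over C l' ∧ w <+: t ++ l'.flatten := by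
  classical
  constructor
  · rintro ⟨u, s, l, hl, h⟩
    have h' : (u ++ v) ++ (w ++ s) = l.flatten := by
      rw [← h]; simp [List.append_assoc]
    obtain ⟨l1, l2, t, ht, ho1, ho2, h3, h4⟩ := mh_cut hne l (u ++ v) (w ++ s) hl h'
    refine ⟨t, ?_, l2, ho2, ⟨s, h4⟩⟩
    unfold mh_T
    rw [Finset.mem_filter]
    exact ⟨ht, u, l1, ho1, h3.symm⟩
  · rintro ⟨t, ht, l', hl', s, hs⟩
    unfold mh_T at ht
    rw [Finset.mem_filter] at ht
    obtain ⟨_, p, l, hl, h⟩ := ht
    refine ⟨p, s, l ++ l', ?_, ?_⟩
    · intro e he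
      rcases List.mem_append.mp he with he | he
      · exact hl e he
      · exact hl' e he
    · rw [List.flatten_append, ← h]
      calc p ++ (v ++ w) ++ s = p ++ v ++ (w ++ s) := by simp [List.append_assoc]
        _ = p ++ v ++ (t ++ l'.flatten) := by rw [hs]
        _ = p ++ v ++ t ++ l'.flatten := by simp [List.append_assoc]

/-- the state reached by a word -/
def mh_q (x : Inp) (v : List ℕ) : ℕ :=
  v.foldl (fun q a => x.2.1.getD (q * x.1 + a) 0) x.2.2.1

/-- the possible states -/
def mh_st (x : Inp) : Finset ℕ := insert x.2.2.1 (insert 0 x.2.1.toFinset)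

theorem mh_st_card (x : Inp) : (mh_st x).card ≤ x.2.1.length + 2 := by
  unfold mh_st
  refine (Finset.card_insert_le _ _).trans ?_
  have h1 := Finset.card_insert_le 0 x.2.1.toFinset
  have h2 := List.toFinset_card_le x.2.1
  omega

theorem mh_q_mem (x : Inp) (v : List ℕ) : mh_q x v ∈ mh_st x := by
  unfold mh_q mh_st
  rcases List.eq_nil_or_concat v with h | ⟨v', a, h⟩
  · subst h
    simp
  · subst h
    rw [List.concat_eq_append, List.foldl_append]
    simp only [List.foldl_cons, List.foldl_nil]
    set i := (List.foldl (fun q a => x.2.1.getD (q * x.1 + a) 0) x.2.2.1 v') * x.1 + a with hi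
    by_cases hlt : i < x.2.1.length
    · rw [List.getD_eq_getElem _ _ hlt]
      simp [List.getElem_mem]
    · rw [List.getD_eq_default _ _ (by omega)]
      simp

theorem mh_q_append (x : Inp) (v v' w : List ℕ) (h : mh_q x v = mh_q x v') :
    mh_q x (v ++ w) = mh_q x (v' ++ w) := by
  unfold mh_q at *
  rw [List.foldl_append, List.foldl_append, h]

theorem mh_LX (x : Inp) (w : List ℕ) (hw : ∀ a ∈ w, a < x.1) :
    w ∈ LX x ↔ mh_q x w ∈ x.2.2.2 := by
  unfold LX mh_q
  constructor
  · intro h
    exact h.2
  · intro h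
    exact ⟨hw, h⟩

/-- deletion step -/
theorem mh_step (x : Inp) (C : Finset (List ℕ)) (w : List ℕ) (hw : ∀ a ∈ w, a < x.1)
    (hlen : NN x * 2 ^ (∑ e ∈ C, (e.length + 1)) < w.length) :
    ∃ w' : List ℕ, w'.length < w.length ∧ (∀ a ∈ w', a < x.1) ∧ (w ∈ LX x ↔ w' ∈ LX x) ∧
      (w ∈ Fac C ↔ w' ∈ Fac C) := by
  classical
  have hNN : NN x = x.2.1.length + 3 := rfl
  have hst := mh_st_card x
  -- common construction
  have key : ∀ i j : ℕ, i < j → j ≤ w.length → mh_q x (w.take i) = mh_q x (w.take j) →
      (w.take i ++ w.drop j).length < w.length ∧ (∀ a ∈ w.take i ++ w.drop j, a < x.1) ∧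
      (w ∈ LX x ↔ w.take i ++ w.drop j ∈ LX x) := by
    intro i j hij hj hq
    have hl : ∀ a ∈ w.take i ++ w.drop j, a < x.1 := by
      intro a ha
      rcases List.mem_append.mp ha with ha | ha
      · exact hw a (List.mem_of_mem_take ha)
      · exact hw a (List.mem_of_mem_drop ha)
    refine ⟨?_, hl, ?_⟩
    · rw [List.length_append, List.length_take, List.length_drop]
      omega
    · rw [mh_LX x w hw, mh_LX x _ hl, mh_q_append x _ _ (w.drop j) hq, List.take_append_drop]
  rcases C.eq_empty_or_nonempty with hC | hC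
  · subst hC
    have hlen' : x.2.1.length + 3 < w.length := by
      simpa [NN] using hlen
    have hmaps : ∀ i ∈ Finset.Icc 1 w.length, mh_q x (w.take i) ∈ mh_st x :=
      fun i _ => mh_q_mem x _
    have hcard : (mh_st x).card < (Finset.Icc 1 w.length).card := by
      rw [Nat.card_Icc]; omega
    obtain ⟨i, hi, j, hj, hne, heq⟩ :=
      Finset.exists_ne_map_eq_of_card_lt_of_maps_to hcard hmaps
    have hfac : ∀ v : List ℕ, v ∈ Fac (∅ : Finset (List ℕ)) ↔ v = [] := by
      intro v
      constructor
      · rintro ⟨p, s, l, hl, h⟩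
        have hl0 : l = [] := by
          rcases l with _ | ⟨c, l⟩
          · rfl
          · exact absurd (hl c (by simp)) (by simp)
        subst hl0
        have h' : p ++ v ++ s = [] := by simpa using h
        have h1 := (List.append_eq_nil_iff.mp h').1
        exact (List.append_eq_nil_iff.mp h1).2
      · intro h
        subst h
        exact ⟨[], [], [], fun c hc => by simp at hc, rfl⟩
    rw [Finset.mem_Icc] at hi hj
    have main : ∀ i j : ℕ, 1 ≤ i → i < j → j ≤ w.length →
        mh_q x (w.take i) = mh_q x (w.take j) →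
        ∃ w' : List ℕ, w'.length < w.length ∧ (∀ a ∈ w', a < x.1) ∧ (w ∈ LX x ↔ w' ∈ LX x) ∧
          (w ∈ Fac (∅ : Finset (List ℕ)) ↔ w' ∈ Fac (∅ : Finset (List ℕ))) := by
      intro i j h1 hij hj hq
      obtain ⟨k1, k2, k3⟩ := key i j hij hj hq
      refine ⟨_, k1, k2, k3, ?_⟩
      rw [hfac, hfac]
      constructor
      · intro h
        exfalso
        rw [h] at hlen'
        simp at hlen'
      · intro h
        exfalso
        have hz := congrArg List.length h
        rw [List.length_append, List.length_take, List.length_drop, List.length_nil] at hz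
        omega
    rcases Nat.lt_or_gt_of_ne hne with hlt | hlt
    · exact main i j hi.1 hlt hj.2 heq
    · exact main j i hj.1 hlt hi.2 heq.symm
  · have hmaps : ∀ i ∈ Finset.range (w.length + 1),
        (mh_q x (w.take i), mh_T C (w.take i)) ∈ (mh_st x) ×ˢ (mh_suf C).powerset := by
      intro i _
      rw [Finset.mem_product]
      refine ⟨mh_q_mem x _, ?_⟩
      rw [Finset.mem_powerset]
      unfold mh_T
      exact Finset.filter_subset _ _
    have hcard : ((mh_st x) ×ˢ (mh_suf C).powerset).card < (Finset.range (w.length + 1)).card := by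
      rw [Finset.card_product, Finset.card_powerset, Finset.card_range]
      have h1 : 2 ^ (mh_suf C).card ≤ 2 ^ (∑ e ∈ C, (e.length + 1)) :=
        Nat.pow_le_pow_right (by norm_num) (mh_suf_card C)
      have h2 : (mh_st x).card * 2 ^ (mh_suf C).card ≤
          NN x * 2 ^ (∑ e ∈ C, (e.length + 1)) :=
        Nat.mul_le_mul (by omega) h1
      omega
    obtain ⟨i, hi, j, hj, hne, heq⟩ :=
      Finset.exists_ne_map_eq_of_card_lt_of_maps_to hcard hmaps
    rw [Finset.mem_range] at hi hj
    have main : ∀ i j : ℕ, i < j → j ≤ w.length →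
        (mh_q x (w.take i), mh_T C (w.take i)) = (mh_q x (w.take j), mh_T C (w.take j)) →
        ∃ w' : List ℕ, w'.length < w.length ∧ (∀ a ∈ w', a < x.1) ∧ (w ∈ LX x ↔ w' ∈ LX x) ∧
          (w ∈ Fac C ↔ w' ∈ Fac C) := by
      intro i j hij hj hq
      rw [Prod.mk.injEq] at hq
      obtain ⟨k1, k2, k3⟩ := key i j hij hj hq.1
      refine ⟨_, k1, k2, k3, ?_⟩
      rw [mh_fac_append hC (w.take i) (w.drop j), hq.2, ← mh_fac_append hC,
        List.take_append_drop]
    rcases Nat.lt_or_gt_of_ne hne with hlt | hlt
    · exact main i j hlt (by omega) heq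
    · exact main j i hlt (by omega) heq.symm

/-- Let w be a shortest word over the letters < x.1 on which membership in LX x and in Fac C differ.
For a word v over these letters let q v be the state reached from x.2.2.1 (it lies in the table, or is
0 or the initial state: at most NN x values) and let T v be the set of all suffixes t of words of C
such that p ++ v ++ t = l.flatten for some p and some l over C.  Then v ++ w is in Fac C iff
w begins a word t ++ m with t in T v and m a product.
If w.length is at least the number of pairs (q, T), two of the initial parts of w have the same pair and the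
part between them can be deleted: a shorter word on which the languages differ. -/
theorem short_diff (x : Inp) (C : Finset (List ℕ)) (h0 : [] ∉ C)
    (h : ∀ w : List ℕ, (∀ a ∈ w, a < x.1) →
      w.length ≤ NN x * 2 ^ (∑ e ∈ C, (e.length + 1)) → (w ∈ LX x ↔ w ∈ Fac C)) :
    ∀ w : List ℕ, (∀ a ∈ w, a < x.1) → (w ∈ LX x ↔ w ∈ Fac C) := by
  have main : ∀ n : ℕ, ∀ w : List ℕ, w.length = n → (∀ a ∈ w, a < x.1) →
      (w ∈ LX x ↔ w ∈ Fac C) := by
    intro n
    induction n using Nat.strong_induction_on with
    | _ n ih =>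
      intro w hn hw
      by_cases hlen : w.length ≤ NN x * 2 ^ (∑ e ∈ C, (e.length + 1))
      · exact h w hw hlen
      · obtain ⟨w', h1, h2, h3, h4⟩ := mh_step x C w hw (by omega)
        rw [h3, h4]
        exact ih w'.length (by omega) w' rfl h2
  intro w hw
  exact main w.length w rfl hw

end Pool.Agent.Helper31.BD
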