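import Mathlib
import Pool.Agent.Helper31.BD.Defs

set_option autoImplicit false

/-!
# MP_93aa28_lc (bounded delay): module I (specifications of the enumerations)
-/

namespace Pool.Agent.Helper31.BD

theorem mem_pw (C : List (List ℕ)) (k : ℕ) (l : List (List ℕ)) :
    l ∈ pw C k ↔ l.length = k ∧ ∀ c ∈ l, c ∈ C := by
  induction k generalizing l with
  | zero =>
    simp only [pw, List.mem_singleton, List.length_eq_zero_iff]
    constructor
    · rintro rfl; simp
    · exact fun h => h.1
  | succ k ih =>
    simp only [pw, List.mem_flatMap, List.mem_map]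
    constructor
    · rintro ⟨q, hq, x, hx, rfl⟩
      obtain ⟨h1, h2⟩ := (ih q).1 hq
      refine ⟨by simp [h1], ?_⟩
      intro y hy
      rcases List.mem_cons.1 hy with rfl | hy
      · exact hx
      · exact h2 y hy
    · rintro ⟨h1, h2⟩
      cases l with
      | nil => simp at h1
      | cons x q =>
        refine ⟨q, (ih q).2 ⟨by simpa using h1, fun c hc => h2 c (by simp [hc])⟩, x,
          h2 x (by simp), rfl⟩

/-- every finite set of words contained in S is the set of members of some duplicate-free element of
subs S (if S has no duplicates) -/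
theorem mem_subs (S : List (List ℕ)) (hS : S.Nodup) (C : Finset (List ℕ)) (hC : ∀ c ∈ C, c ∈ S) :
    ∃ C' ∈ subs S, C'.Nodup ∧ C'.toFinset = C := by
  induction S generalizing C with
  | nil =>
    refine ⟨[], by simp [subs], by simp, ?_⟩
    ext c
    constructor
    · intro h; simp at h
    · intro h; exact absurd (hC c h) (by simp)
  | cons a S ih =>
    have hS' : S.Nodup := (List.nodup_cons.1 hS).2
    have haS : a ∉ S := (List.nodup_cons.1 hS).1
    by_cases ha : a ∈ C
    · obtain ⟨C', h1, h2, h3⟩ := ih hS' (C.erase a) (by
        intro c hc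
        rcases List.mem_cons.1 (hC c (Finset.mem_of_mem_erase hc)) with h | h
        · exact absurd h (Finset.ne_of_mem_erase hc)
        · exact h)
      refine ⟨a :: C', ?_, ?_, ?_⟩
      · simp only [subs, List.mem_append, List.mem_map]
        exact Or.inr ⟨C', h1, rfl⟩
      · refine List.nodup_cons.2 ⟨?_, h2⟩
        intro h
        have : a ∈ C'.toFinset := List.mem_toFinset.2 h
        rw [h3] at this
        exact (Finset.notMem_erase a C) this
      · rw [List.toFinset_cons, h3, Finset.insert_erase ha]
    · obtain ⟨C', h1, h2, h3⟩ := ih hS' C (by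
        intro c hc
        rcases List.mem_cons.1 (hC c hc) with h | h
        · exact absurd (h ▸ hc) ha
        · exact h)
      refine ⟨C', ?_, h2, h3⟩
      simp only [subs, List.mem_append]
      exact Or.inl h1

theorem subs_nodup (S : List (List ℕ)) (hS : S.Nodup) (C : List (List ℕ)) (hC : C ∈ subs S) :
    C.Nodup ∧ ∀ c ∈ C, c ∈ S := by
  induction S generalizing C with
  | nil =>
    simp only [subs, List.mem_singleton] at hC
    subst hC
    simp
  | cons a S ih =>
    have hS' : S.Nodup := (List.nodup_cons.1 hS).2
    have haS : a ∉ S := (List.nodup_cons.1 hS).1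
    simp only [subs, List.mem_append, List.mem_map] at hC
    rcases hC with h | ⟨C', h, rfl⟩
    · obtain ⟨h1, h2⟩ := ih hS' C h
      exact ⟨h1, fun c hc => List.mem_cons_of_mem _ (h2 c hc)⟩
    · obtain ⟨h1, h2⟩ := ih hS' C' h
      refine ⟨List.nodup_cons.2 ⟨fun h' => haS (h2 a h'), h1⟩, ?_⟩
      intro c hc
      rcases List.mem_cons.1 hc with rfl | hc
      · simp
      · exact List.mem_cons_of_mem _ (h2 c hc)

theorem mem_wdLe (n k : ℕ) (w : List ℕ) : w ∈ wdLe n k ↔ w.length ≤ k ∧ ∀ a ∈ w, a < n := by
  simp only [wdLe, List.mem_flatMap, List.mem_range, Pool.Agent.Helper84.LD.mem_FL]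
  constructor
  · rintro ⟨t, ht, h1, h2⟩
    exact ⟨by omega, h2⟩
  · rintro ⟨h1, h2⟩
    exact ⟨w.length, by omega, rfl, h2⟩

theorem mi_FL_nodup (n t : ℕ) : (Pool.Agent.Helper84.LD.FL n t).Nodup := by
  induction t with
  | zero => simp [Pool.Agent.Helper84.LD.FL]
  | succ t ih =>
    simp only [Pool.Agent.Helper84.LD.FL]
    rw [List.nodup_flatMap]
    refine ⟨?_, ?_⟩
    · intro p _
      refine List.Nodup.map ?_ List.nodup_range
      intro x y h
      simpa using h
    · refine ih.imp ?_
      intro p q hpq
      show List.Disjoint _ _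
      intro w hw hw'
      simp only [List.mem_map] at hw hw'
      obtain ⟨x, _, rfl⟩ := hw
      obtain ⟨y, _, h⟩ := hw'
      exact hpq (by simpa using (List.cons.inj h).2.symm)

theorem wdLe_nodup (n k : ℕ) : (wdLe n k).Nodup := by
  unfold wdLe
  rw [List.nodup_flatMap]
  refine ⟨fun t _ => mi_FL_nodup n t, ?_⟩
  refine (List.nodup_range (n := k + 1)).imp ?_
  intro s t hst
  show List.Disjoint _ _
  intro w hw hw'
  rw [Pool.Agent.Helper84.LD.mem_FL] at hw hw'
  exact hst (hw.1.symm.trans hw'.1)

/-- D0 of a duplicate-free list is the sum of (length + 1) -/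
theorem D0_eq (C : List (List ℕ)) (hC : C.Nodup) : D0 C = ∑ e ∈ C.toFinset, (e.length + 1) := by
  rw [List.sum_toFinset _ hC]
  unfold D0
  clear hC
  induction C with
  | nil => simp
  | cons a C ih =>
    simp only [List.flatten_cons, List.length_append, List.length_cons, List.map_cons,
      List.sum_cons]
    omega

/-- enough words cover a given length -/
theorem mi_cut (l : List (List ℕ)) (hl : ∀ c ∈ l, c ≠ []) (n : ℕ) (hn : n ≤ l.flatten.length) :
    ∃ j ≤ n, n ≤ (l.take j).flatten.length := by
  induction l generalizing n with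
  | nil =>
    refine ⟨0, Nat.zero_le _, ?_⟩
    simpa using hn
  | cons c l ih =>
    rcases Nat.eq_zero_or_pos n with rfl | hpos
    · exact ⟨0, le_rfl, Nat.zero_le _⟩
    · have hc : 1 ≤ c.length := List.length_pos_iff.2 (hl c (by simp))
      by_cases h : n ≤ c.length
      · refine ⟨1, hpos, ?_⟩
        simpa using h
      · obtain ⟨j, hj, hj'⟩ := ih (fun c hc => hl c (by simp [hc])) (n - c.length) (by
          simp only [List.flatten_cons, List.length_append] at hn
          omega)
        refine ⟨j + 1, by omega, ?_⟩
        simp only [List.take_succ_cons, List.flatten_cons, List.length_append]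
        omega

theorem mi_flatten_take (l : List (List ℕ)) (j : ℕ) :
    (l.take j).flatten <+: l.flatten := by
  refine ⟨(l.drop j).flatten, ?_⟩
  rw [← List.flatten_append, List.take_append_drop]

/-- dropping words from the front -/
theorem mi_front (l : List (List ℕ)) (u r : List ℕ) (h : u ++ r = l.flatten) :
    ∃ (l' : List (List ℕ)) (u' : List ℕ), (∀ c ∈ l', c ∈ l) ∧ u' ++ r = l'.flatten ∧
      (l' = [] ∨ ∃ c l'', l' = c :: l'' ∧ u'.length < c.length) := by
  induction l generalizing u with
  | nil =>
    exact ⟨[], u, by simp, h, Or.inl rfl⟩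
  | cons c l ih =>
    by_cases hc : u.length < c.length
    · exact ⟨c :: l, u, fun _ h => h, h, Or.inr ⟨c, l, rfl, hc⟩⟩
    · have hcu : c <+: u := by
        rw [List.flatten_cons] at h
        have h1 : c <+: u ++ r := ⟨l.flatten, h.symm⟩
        exact List.prefix_of_prefix_length_le h1 ⟨r, rfl⟩ (by omega)
      obtain ⟨u', rfl⟩ := hcu
      obtain ⟨l', u'', h1, h2, h3⟩ := ih u' (by
        rw [List.flatten_cons, List.append_assoc] at h
        exact List.append_cancel_left h)
      exact ⟨l', u'', fun c hc => List.mem_cons_of_mem _ (h1 c hc), h2, h3⟩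

theorem mi_take_eq (L w : List ℕ) (L' : List ℕ) (hp : L' <+: L) (hw : w <+: L)
    (hl : w.length ≤ L'.length) : L'.take w.length = w := by
  have h1 : w <+: L' := List.prefix_of_prefix_length_le hw hp hl
  obtain ⟨t, rfl⟩ := h1
  simp

/-- a factor of a product of nonempty words of C is a factor of a product of at most w.length + 2 of
them -/
theorem facX_iff (C : List (List ℕ)) (h0 : [] ∉ C) (w : List ℕ) :
    FacX C w ↔ w ∈ Fac C.toFinset := by
  constructor
  · rintro ⟨j, _, l, hl, i, _, h⟩
    rw [mem_pw] at hl
    refine ⟨l.flatten.take i, (l.flatten.drop i).drop w.length, l,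
      fun c hc => List.mem_toFinset.2 (hl.2 c hc), ?_⟩
    conv_lhs => rw [List.append_assoc]; arg 2; arg 1; rw [← h]
    rw [List.take_append_drop, List.take_append_drop]
  · rintro ⟨u, v, l, hl, h⟩
    rw [List.append_assoc] at h
    obtain ⟨l', u', h1, h2, h3⟩ := mi_front l u (w ++ v) h
    have hl' : ∀ c ∈ l', c ∈ C := fun c hc => List.mem_toFinset.1 (hl c (h1 c hc))
    have hne : ∀ c ∈ l', c ≠ [] := fun c hc h => h0 (h ▸ hl' c hc)
    rcases h3 with rfl | ⟨c, l'', rfl, hc⟩
    · have h4 : u' = [] ∧ w = [] ∧ v = [] := by
        simpa [List.append_eq_nil_iff] using h2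
      obtain ⟨rfl, rfl, rfl⟩ := h4
      refine ⟨0, by simp, [], by simp [pw], 0, by simp, by simp⟩
    · -- enough words
      have hlen : u'.length + (w.length + v.length) = c.length + l''.flatten.length := by
        have := congrArg List.length h2
        simpa using this
      obtain ⟨j, hj, hj'⟩ : ∃ j ≤ w.length + 1,
          u'.length + w.length ≤ ((c :: l'').take j).flatten.length := by
        by_cases hh : u'.length + w.length ≤ c.length
        · exact ⟨1, by omega, by simpa using hh⟩
        · obtain ⟨j, hj, hj'⟩ := mi_cut l'' (fun c hc => hne c (by simp [hc]))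
            (u'.length + w.length - c.length) (by omega)
          refine ⟨j + 1, by omega, ?_⟩
          simp only [List.take_succ_cons, List.flatten_cons, List.length_append]
          omega
      set m := (c :: l'').take j with hm
      have hmlen : m.length ≤ w.length + 1 := by
        rw [hm, List.length_take]; omega
      have hpre : (u' ++ w) <+: (c :: l'').flatten := ⟨v, by rw [List.append_assoc, h2]⟩
      have htk : m.flatten.take (u' ++ w).length = u' ++ w :=
        mi_take_eq _ _ _ (mi_flatten_take (c :: l'') j) hpre (by simpa using hj')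
      refine ⟨m.length, by omega, m, ?_, u'.length, by omega, ?_⟩
      · rw [mem_pw]
        exact ⟨rfl, fun x hx => hl' x (List.mem_of_mem_take hx)⟩
      · have : (m.flatten.drop u'.length).take w.length
            = (m.flatten.take (u'.length + w.length)).drop u'.length := by
          rw [List.drop_take]
          congr 1
          omega
        rw [this]
        rw [List.length_append] at htk
        rw [htk]
        simp

/-- DelOK is bounded delay with bound D0 C: BDD with D0 C ≤ l.length follows from the case of equality
by taking a prefix of l, and l' may be cut after the first point where it is long enough, which needs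
at most (c :: l).flatten.length words because they are nonempty -/
theorem delOK_iff (C : List (List ℕ)) (h0 : [] ∉ C) :
    DelOK C ↔ BDD C.toFinset (D0 C) := by
  constructor
  · intro hD c hc c' hc' l l' hl hl' hlen hpre
    rw [List.mem_toFinset] at hc hc'
    have hne : ∀ x ∈ l', x ≠ [] := fun x hx h => h0 (h ▸ List.mem_toFinset.1 (hl' x hx))
    set l0 := l.take (D0 C) with hl0
    have hl0m : l0 ∈ pw C (D0 C) := by
      rw [mem_pw]
      refine ⟨by rw [hl0, List.length_take]; omega, fun x hx => ?_⟩
      exact List.mem_toFinset.1 (hl x (List.mem_of_mem_take hx))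
    set n := (c :: l0).flatten.length with hn
    have hp1 : (c :: l0).flatten <+: (c :: l).flatten := by
      have := mi_flatten_take (c :: l) (D0 C + 1)
      simpa [hl0] using this
    have hp2 : (c :: l0).flatten <+: (c' :: l').flatten := hp1.trans hpre
    have hnle : n ≤ (c' :: l').flatten.length := hp2.length_le
    obtain ⟨j, hj, hj'⟩ : ∃ j ≤ n, n ≤ (c' :: l'.take j).flatten.length := by
      by_cases hh : n ≤ c'.length
      · exact ⟨0, Nat.zero_le _, by simpa using hh⟩
      · obtain ⟨j, hj, hj'⟩ := mi_cut l' hne (n - c'.length) (by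
          simp only [List.flatten_cons, List.length_append] at hnle
          omega)
        refine ⟨j, by omega, ?_⟩
        simp only [List.flatten_cons, List.length_append]
        omega
    have hp3 : (c' :: l'.take j).flatten <+: (c' :: l').flatten := by
      have := mi_flatten_take (c' :: l') (j + 1)
      simpa using this
    refine hD l0 hl0m c hc c' hc' (l'.take j).length ?_ (l'.take j) ?_ ?_
    · rw [List.length_take]; omega
    · rw [mem_pw]
      exact ⟨rfl, fun x hx => List.mem_toFinset.1 (hl' x (List.mem_of_mem_take hx))⟩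
    · exact mi_take_eq _ _ _ hp3 hp2 hj'
  · intro hB l hl c hc c' hc' j _ l' hl' h
    rw [mem_pw] at hl hl'
    refine hB c (List.mem_toFinset.2 hc) c' (List.mem_toFinset.2 hc') l l'
      (fun x hx => List.mem_toFinset.2 (hl.2 x hx)) (fun x hx => List.mem_toFinset.2 (hl'.2 x hx))
      (by omega) ?_
    rw [← h]
    exact List.take_prefix _ _

end Pool.Agent.Helper31.BD
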