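import Mathlib
import Pool.Agent.Helper31.BD.Defs

set_option autoImplicit false

/-!
# MP_93aa28_lc (bounded delay): module J, the procedure is primitive recursive
-/

namespace Pool.Agent.Helper31.BD

open Pool.Agent.Helper84.LD

theorem primrec_pw : Primrec₂ pw := by
  have h : Primrec₂ fun (C : List (List ℕ)) (t : ℕ) => (Nat.rec [[]] (fun _ L =>
      L.flatMap fun l => C.map fun c => c :: l) t : List (List (List ℕ))) := by
    refine Primrec.nat_rec (f := fun _ : List (List ℕ) => ([[]] : List (List (List ℕ))))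
      (g := fun (C : List (List ℕ)) (x : ℕ × List (List (List ℕ))) =>
        x.2.flatMap fun l => C.map fun c => c :: l) (Primrec.const [[]]) ?_
    refine Primrec.list_flatMap (Primrec.snd.comp Primrec.snd) ?_
    refine Primrec.list_map (Primrec.fst.comp Primrec.fst) ?_
    exact Primrec.list_cons.comp Primrec.snd (Primrec.snd.comp Primrec.fst)
  refine h.of_eq fun C t => ?_
  induction t with
  | zero => rfl
  | succ t ih => simp only [pw]; rw [← ih]

theorem primrec_subs : Primrec subs := by
  have h : Primrec fun (S : List (List ℕ)) => S.foldr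
      (fun a (T : List (List (List ℕ))) => T ++ T.map fun l => a :: l) [[]] := by
    refine Primrec.list_foldr (f := fun S : List (List ℕ) => S)
      (g := fun _ => ([[]] : List (List (List ℕ))))
      (h := fun _ (x : List ℕ × List (List (List ℕ))) => x.2 ++ x.2.map fun l => x.1 :: l)
      Primrec.id (Primrec.const _) ?_
    refine Primrec.list_append.comp (Primrec.snd.comp Primrec.snd) ?_
    refine Primrec.list_map (Primrec.snd.comp Primrec.snd) ?_
    exact Primrec.list_cons.comp (Primrec.fst.comp (Primrec.snd.comp Primrec.fst)) Primrec.snd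
  refine h.of_eq fun S => ?_
  induction S with
  | nil => rfl
  | cons a S ih => simp only [subs, List.foldr_cons]; rw [ih]

theorem mj_primrec_D0 : Primrec D0 :=
  Primrec.nat_add.comp (Primrec.list_length.comp Primrec.list_flatten) Primrec.list_length

theorem mj_primrec_pow2 : Primrec fun n : ℕ => 2 ^ n := by
  have h : Primrec fun n : ℕ => (Nat.rec 1 (fun _ y => y * 2) n : ℕ) :=
    Primrec.nat_rec₁ 1 (Primrec.nat_mul.comp Primrec.snd (Primrec.const 2))
  refine h.of_eq fun n => ?_
  induction n with
  | zero => rfl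
  | succ n ih => rw [pow_succ, ← ih]

theorem mj_primrec_NN : Primrec NN :=
  Primrec.nat_add.comp (Primrec.list_length.comp (Primrec.fst.comp Primrec.snd))
    (Primrec.const 3)

theorem mj_primrec_BB : Primrec BB :=
  mj_primrec_pow2.comp (mj_primrec_pow2.comp (mj_primrec_pow2.comp mj_primrec_NN))

theorem mj_primrec_wdLe : Primrec₂ wdLe := by
  refine Primrec.list_flatMap
    (Primrec.list_range.comp (Primrec.succ.comp Primrec.snd)) ?_
  exact primrec_FL.comp (Primrec.fst.comp Primrec.fst) Primrec.snd

theorem mj_pp_DelOK : PrimrecPred DelOK := by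
  unfold DelOK
  refine ctx_forall_mem (primrec_pw.comp Primrec.id mj_primrec_D0) ?_
  refine ctx_forall_mem Primrec.fst ?_
  refine ctx_forall_mem (Primrec.fst.comp Primrec.fst) ?_
  -- context ((((C, l), c), c'))
  have hcl : Primrec fun x : (((List (List ℕ)) × List (List ℕ)) × List ℕ) × List ℕ =>
      (x.1.2 :: x.1.1.2).flatten :=
    Primrec.list_flatten.comp (Primrec.list_cons.comp (Primrec.snd.comp Primrec.fst)
      (Primrec.snd.comp (Primrec.fst.comp Primrec.fst)))
  refine ctx_forall_lt (Primrec.succ.comp (Primrec.list_length.comp hcl)) ?_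
  refine ctx_forall_mem (primrec_pw.comp
    (Primrec.fst.comp (Primrec.fst.comp (Primrec.fst.comp Primrec.fst))) Primrec.snd) ?_
  have hcl' := hcl.comp (Primrec.fst.comp (Primrec.fst (α := _ × ℕ) (β := List (List ℕ))))
  have hc' : Primrec fun x : (((((List (List ℕ)) × List (List ℕ)) × List ℕ) × List ℕ) × ℕ) ×
      List (List ℕ) => (x.1.1.2 :: x.2).flatten :=
    Primrec.list_flatten.comp (Primrec.list_cons.comp
      (Primrec.snd.comp (Primrec.fst.comp Primrec.fst)) Primrec.snd)
  refine pp_imp (pp_eq (Primrec.list_take.comp (Primrec.list_length.comp hcl') hc') hcl') ?_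
  exact pp_eq (Primrec.snd.comp (Primrec.fst.comp (Primrec.fst.comp Primrec.fst)))
    (Primrec.snd.comp (Primrec.fst.comp Primrec.fst))

theorem mj_pp_FacX : PrimrecPred fun x : List (List ℕ) × List ℕ => FacX x.1 x.2 := by
  unfold FacX
  refine ctx_exists_lt (Primrec.nat_add.comp (Primrec.list_length.comp Primrec.snd)
    (Primrec.const 3)) ?_
  refine ctx_exists_mem (primrec_pw.comp (Primrec.fst.comp Primrec.fst) Primrec.snd) ?_
  refine ctx_exists_lt (Primrec.succ.comp (Primrec.list_length.comp
    (Primrec.list_flatten.comp Primrec.snd))) ?_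
  have hw : Primrec fun x : (((List (List ℕ)) × List ℕ) × ℕ) × List (List ℕ) => x.1.1.2 :=
    Primrec.snd.comp (Primrec.fst.comp Primrec.fst)
  have hw' := hw.comp (Primrec.fst (α := _ × List (List ℕ)) (β := ℕ))
  refine pp_eq (Primrec.list_take.comp (Primrec.list_length.comp hw') ?_) hw'
  exact Primrec.list_drop.comp Primrec.snd
    (Primrec.list_flatten.comp (Primrec.snd.comp Primrec.fst))

theorem mj_pp_LX : PrimrecPred fun x : Inp × List ℕ => x.2 ∈ LX x.1 := by
  have h1 : PrimrecPred fun x : Inp × List ℕ => ∀ a ∈ x.2, a < x.1.1 := by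
    refine ctx_forall_mem Primrec.snd ?_
    exact Primrec.nat_lt.comp Primrec.snd (Primrec.fst.comp (Primrec.fst.comp Primrec.fst))
  have h2 : Primrec fun x : Inp × List ℕ =>
      x.2.foldl (fun q a => x.1.2.1.getD (q * x.1.1 + a) 0) x.1.2.2.1 := by
    refine Primrec.list_foldl (f := fun x : Inp × List ℕ => x.2)
      (g := fun x : Inp × List ℕ => x.1.2.2.1)
      (h := fun (x : Inp × List ℕ) (y : ℕ × ℕ) => x.1.2.1.getD (y.1 * x.1.1 + y.2) 0)
      Primrec.snd ?_ ?_
    · exact Primrec.fst.comp (Primrec.snd.comp (Primrec.snd.comp Primrec.fst))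
    · refine (Primrec.list_getD 0).comp
        (Primrec.fst.comp (Primrec.snd.comp (Primrec.fst.comp Primrec.fst))) ?_
      refine Primrec.nat_add.comp (Primrec.nat_mul.comp (Primrec.fst.comp Primrec.snd) ?_)
        (Primrec.snd.comp Primrec.snd)
      exact Primrec.fst.comp (Primrec.fst.comp Primrec.fst)
  have h3 : PrimrecPred fun x : Inp × List ℕ =>
      x.2.foldl (fun q a => x.1.2.1.getD (q * x.1.1 + a) 0) x.1.2.2.1 ∈ x.1.2.2.2 :=
    pp_mem h2 (Primrec.snd.comp (Primrec.snd.comp (Primrec.snd.comp Primrec.fst)))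
  exact h1.and h3

theorem pp_PX : PrimrecPred PX := by
  unfold PX
  refine ctx_exists_mem (primrec_subs.comp (mj_primrec_wdLe.comp Primrec.fst mj_primrec_BB)) ?_
  refine PrimrecPred.and ?_ (PrimrecPred.and (PrimrecPred.or ?_ ?_) ?_)
  · exact (pp_mem (Primrec.const []) Primrec.snd).not
  · exact mj_pp_DelOK.comp Primrec.snd
  · refine mj_pp_DelOK.comp (Primrec.list_map Primrec.snd ?_)
    exact Primrec.list_reverse.comp Primrec.snd
  · have hK : Primrec fun x : Inp × List (List ℕ) => KK x.1 x.2 :=
      Primrec.nat_mul.comp (mj_primrec_NN.comp Primrec.fst)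
        (mj_primrec_pow2.comp (mj_primrec_D0.comp Primrec.snd))
    refine ctx_forall_mem (mj_primrec_wdLe.comp (Primrec.fst.comp Primrec.fst) hK) ?_
    refine pp_iff ?_ ?_
    · exact mj_pp_LX.comp (Primrec.pair (Primrec.fst.comp Primrec.fst) Primrec.snd)
    · exact mj_pp_FacX.comp (Primrec.pair (Primrec.snd.comp Primrec.fst) Primrec.snd)

end Pool.Agent.Helper31.BD
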