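import Mathlib
import Pool.Agent.Helper31.BD.Defs

set_option autoImplicit false

/-!
# MP_93aa28_lc (bounded delay): module K (reversal and counting quotients)
-/

namespace Pool.Agent.Helper31.BD

/-- the transition function of the input automaton -/
def mk_step (x : Inp) (q a : ℕ) : ℕ := x.2.1.getD (q * x.1 + a) 0

/-- the state reached after reading the word -/
def mk_st (x : Inp) (u : List ℕ) : ℕ := u.foldl (fun q a => x.2.1.getD (q * x.1 + a) 0) x.2.2.1

/-- number of a state -/
def mk_num (x : Inp) (q : ℕ) : ℕ :=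
  if q = x.2.2.1 then 0 else if q = 0 then 1 else 2 + x.2.1.idxOf q

theorem mk_reach (x : Inp) (u : List ℕ) :
    mk_st x u = x.2.2.1 ∨ mk_st x u = 0 ∨ mk_st x u ∈ x.2.1 := by
  induction u using List.reverseRecOn with
  | nil => left; rfl
  | append_singleton l a ih =>
    right
    unfold mk_st
    rw [List.foldl_append]
    simp only [List.foldl_cons, List.foldl_nil]
    generalize (List.foldl (fun q a => x.2.1.getD (q * x.1 + a) 0) x.2.2.1 l * x.1 + a) = k
    by_cases hk : k < x.2.1.length
    · right
      rw [List.getD_eq_getElem _ _ hk]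
      exact List.getElem_mem hk
    · left
      exact List.getD_eq_default _ _ (by omega)

theorem mk_num_lt (x : Inp) (u : List ℕ) : mk_num x (mk_st x u) < x.2.1.length + 2 := by
  unfold mk_num
  split_ifs with h1 h2
  · omega
  · omega
  · rcases mk_reach x u with h | h | h
    · exact absurd h h1
    · exact absurd h h2
    · have := List.idxOf_lt_length_of_mem h
      omega

theorem mk_num_inj (x : Inp) (u u' : List ℕ)
    (h : mk_num x (mk_st x u) = mk_num x (mk_st x u')) : mk_st x u = mk_st x u' := by
  unfold mk_num at h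
  split_ifs at h with h1 h2 h3 h4 h5 h6 h7 h8
  all_goals first
    | omega
    | (rw [h1, h2])
    | skip
  all_goals
    have hu : mk_st x u ∈ x.2.1 := by
      rcases mk_reach x u with h' | h' | h'
      · exact absurd h' (by assumption)
      · exact absurd h' (by assumption)
      · exact h'
    have h'' : x.2.1.idxOf (mk_st x u) = x.2.1.idxOf (mk_st x u') := by omega
    exact (List.idxOf_inj hu).1 h''

open Classical in
/-- the class of a word -/
noncomputable def mk_cls (x : Inp) (u : List ℕ) : ℕ :=
  if (∀ a ∈ u, a < x.1) then mk_num x (mk_st x u) else x.2.1.length + 2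

theorem mk_cls_lt (x : Inp) (u : List ℕ) : mk_cls x u < NN x := by
  unfold mk_cls NN
  split_ifs
  · have := mk_num_lt x u
    omega
  · omega

theorem mk_app (x : Inp) (u v : List ℕ) :
    u ++ v ∈ LX x ↔ (∀ a ∈ u, a < x.1) ∧ (∀ a ∈ v, a < x.1) ∧
      v.foldl (fun q a => x.2.1.getD (q * x.1 + a) 0) (mk_st x u) ∈ x.2.2.2 := by
  unfold LX mk_st
  rw [Set.mem_ofPred_eq, List.foldl_append]
  constructor
  · rintro ⟨h1, h2⟩
    exact ⟨fun a ha => h1 a (List.mem_append_left _ ha),
      fun a ha => h1 a (List.mem_append_right _ ha), h2⟩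
  · rintro ⟨h1, h2, h3⟩
    refine ⟨fun a ha => ?_, h3⟩
    rcases List.mem_append.1 ha with h | h
    · exact h1 a h
    · exact h2 a h

theorem few_LX (x : Inp) : Few (LX x) (NN x) := by
  refine ⟨fun u => ⟨mk_cls x u, mk_cls_lt x u⟩, ?_⟩
  intro u u' h v
  have h0 : mk_cls x u = mk_cls x u' := by simpa using h
  rw [mk_app, mk_app]
  unfold mk_cls at h0
  have l1 := mk_num_lt x u
  have l2 := mk_num_lt x u'
  split_ifs at h0 with h1 h2 h3
  · rw [mk_num_inj x u u' h0]
    exact ⟨fun h => ⟨h2, h.2⟩, fun h => ⟨h1, h.2⟩⟩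
  · omega
  · omega
  · exact ⟨fun h => absurd h.1 h1, fun h => absurd h.1 h3⟩

theorem mk_few_rev {L : Set (List ℕ)} {N : ℕ} (h : Few L N) :
    Few (List.reverse '' L) (2 ^ N) := by
  classical
  obtain ⟨st, hst⟩ := h
  have hc : Fintype.card (Set (Fin N)) = 2 ^ N := by
    rw [Fintype.card_set, Fintype.card_fin]
  let e : Set (Fin N) ≃ Fin (2 ^ N) := Fintype.equivFinOfCardEq hc
  have key : ∀ u w : List ℕ, (w ++ u.reverse ∈ L ↔
      st w ∈ {i : Fin N | ∃ w', st w' = i ∧ w' ++ u.reverse ∈ L}) := by
    intro u w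
    constructor
    · intro h
      exact ⟨w, rfl, h⟩
    · rintro ⟨w', h1, h2⟩
      exact (hst w' w h1 _).1 h2
  have mem_rev : ∀ w : List ℕ, w ∈ List.reverse '' L ↔ w.reverse ∈ L := by
    intro w
    constructor
    · rintro ⟨w', h1, rfl⟩
      rwa [List.reverse_reverse]
    · intro h
      exact ⟨w.reverse, h, List.reverse_reverse w⟩
  refine ⟨fun u => e {i : Fin N | ∃ w', st w' = i ∧ w' ++ u.reverse ∈ L}, ?_⟩
  intro u u' h v
  have h' := e.injective h
  rw [mem_rev, mem_rev, List.reverse_append, List.reverse_append, key u v.reverse,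
    key u' v.reverse, h']

theorem few_rev (x : Inp) : Few (List.reverse '' (LX x)) (2 ^ NN x) := mk_few_rev (few_LX x)

theorem rev_rev (C : Finset (List ℕ)) : revC (revC C) = C := by
  unfold revC
  rw [Finset.image_image]
  have : (List.reverse ∘ List.reverse : List ℕ → List ℕ) = id := by
    funext l
    simp
  rw [this, Finset.image_id]

theorem mk_over {C : Finset (List ℕ)} {l : List (List ℕ)} (h : Over (revC C) l) :
    Over C (l.map List.reverse).reverse := by
  intro c hc
  rw [List.mem_reverse, List.mem_map] at hc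
  obtain ⟨d, hd, rfl⟩ := hc
  have := h d hd
  unfold revC at this
  rw [Finset.mem_image] at this
  obtain ⟨e, he, rfl⟩ := this
  rwa [List.reverse_reverse]

theorem mk_fac {C : Finset (List ℕ)} {w : List ℕ} (h : w ∈ Fac (revC C)) :
    w.reverse ∈ Fac C := by
  obtain ⟨u, v, l, hl, he⟩ := h
  refine ⟨v.reverse, u.reverse, (l.map List.reverse).reverse, mk_over hl, ?_⟩
  rw [← List.reverse_flatten, ← he, List.reverse_append, List.reverse_append,
    List.append_assoc]

theorem fac_rev (C : Finset (List ℕ)) : Fac (revC C) = List.reverse '' (Fac C) := by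
  ext w
  constructor
  · intro h
    exact ⟨w.reverse, mk_fac h, List.reverse_reverse w⟩
  · rintro ⟨w', h, rfl⟩
    rw [← rev_rev C] at h
    exact mk_fac h

theorem ud_rev {C : Finset (List ℕ)} (h : UD C) : UD (revC C) := by
  intro l1 l2 h1 h2 he
  have h3 := h _ _ (mk_over h1) (mk_over h2) (by
    rw [← List.reverse_flatten, ← List.reverse_flatten, he])
  have h4 := List.reverse_injective h3
  exact List.map_injective_iff.2 List.reverse_injective h4

end Pool.Agent.Helper31.BD
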