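import Mathlib
import Pool.Agent.Helper31.BD.A
import Pool.Agent.Helper31.BD.B
import Pool.Agent.Helper31.BD.C
import Pool.Agent.Helper31.BD.D
import Pool.Agent.Helper31.BD.E
import Pool.Agent.Helper31.BD.F
import Pool.Agent.Helper31.BD.G
import Pool.Agent.Helper31.BD.H
import Pool.Agent.Helper31.BD.I
import Pool.Agent.Helper31.BD.J
import Pool.Agent.Helper31.BD.K

set_option autoImplicit false

/-!
# MP_93aa28_lc (bounded delay): assembly
-/

namespace Pool.Agent.Helper31.BD

theorem bdd_bound {C : Finset (List ℕ)} (h0 : [] ∉ C) {D : ℕ} (hD : BDD C D) :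
    BDD C (∑ e ∈ C, (e.length + 1)) := by
  intro c hc c' hc' l l' hl hl' hlen hpre
  obtain ⟨y, hy, y', hy', e⟩ := pump h0 hc hc' hl hl' hlen hpre
  exact bdd_up h0 hD hc hc' hy hy' e

theorem up_bdd {C : Finset (List ℕ)} (h0 : [] ∉ C)
    (hup : ∀ c ∈ C, ∀ c' ∈ C, ∀ y ∈ Om C, ∀ y' ∈ Om C, app c y = app c' y' → c = c') :
    BDD C (∑ e ∈ C, (e.length + 1)) := by
  intro c hc c' hc' l l' hl hl' hlen hpre
  obtain ⟨y, hy, y', hy', e⟩ := pump h0 hc hc' hl hl' hlen hpre
  exact hup c hc c' hc' y hy y' hy' e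

theorem short_bdd {C : Finset (List ℕ)} {n N D : ℕ} (h0 : [] ∉ C)
    (hn : ∀ c ∈ C, ∀ a ∈ c, a < n) (hfew : Few (Fac C) N) (hD : BDD C D) :
    ∃ C' : Finset (List ℕ), [] ∉ C' ∧ (∀ c ∈ C', ∀ a ∈ c, a < n) ∧
      (∀ c ∈ C', c.length ≤ 2 ^ (2 ^ N)) ∧ UD C' ∧
      BDD C' (∑ e ∈ C', (e.length + 1)) ∧ Fac C' = Fac C := by
  rcases C.eq_empty_or_nonempty with rfl | hne
  · refine ⟨∅, by simp, by simp, by simp, ?_, ?_, rfl⟩
    · intro l1 l2 h1 h2 _
      have e1 : l1 = [] := by
        cases l1 with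
        | nil => rfl
        | cons a t => exact absurd (h1 a List.mem_cons_self) (by simp)
      have e2 : l2 = [] := by
        cases l2 with
        | nil => rfl
        | cons a t => exact absurd (h2 a List.mem_cons_self) (by simp)
      rw [e1, e2]
    · intro c hc
      simp at hc
  obtain ⟨C', h0', hn', hlen, hW, hup⟩ := short_code h0 hn hfew
    (fun _ hc _ hc' _ hy _ hy' e => bdd_up h0 hD hc hc' hy hy' e)
    (fun y y' h hy => type_det h0 hne hD h hy)
  have hOm : Om C' = Om C := om_le h0 h0' hne hW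
  have hup' : ∀ c ∈ C', ∀ c' ∈ C', ∀ y ∈ Om C', ∀ y' ∈ Om C', app c y = app c' y' → c = c' := by
    rw [hOm]; exact hup
  exact ⟨C', h0', hn', hlen, up_ud h0' hup', up_bdd h0' hup', fac_eq h0 h0' hne hW⟩

theorem ud_nil {C : Finset (List ℕ)} (h : UD C) : [] ∉ C := by
  intro hc
  have := h [[]] [] (by intro c hc'; simp at hc'; rw [hc']; exact hc) (by intro c hc'; simp at hc')
    (by simp)
  simp at this

theorem mem_fac_self {C : Finset (List ℕ)} {c : List ℕ} (hc : c ∈ C) : c ∈ Fac C :=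
  ⟨[], [], [c], by intro d hd; simp at hd; rw [hd]; exact hc, by simp⟩

theorem fac_letters {C : Finset (List ℕ)} {n : ℕ} (hn : ∀ c ∈ C, ∀ a ∈ c, a < n) {w : List ℕ}
    (hw : w ∈ Fac C) : ∀ a ∈ w, a < n := by
  obtain ⟨u, v, l, hl, e⟩ := hw
  intro a ha
  have h1 : a ∈ l.flatten := by rw [← e]; simp [ha]
  obtain ⟨c, hc, hac⟩ := List.mem_flatten.1 h1
  exact hn c (hl c hc) a hac

theorem revC_nil {C : Finset (List ℕ)} (h0 : [] ∉ C) : [] ∉ revC C := by
  intro h
  obtain ⟨c, hc, e⟩ := Finset.mem_image.1 h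
  rw [List.reverse_eq_nil_iff] at e
  exact h0 (e ▸ hc)

theorem map_rev_toFinset (C : List (List ℕ)) :
    (C.map List.reverse).toFinset = revC C.toFinset := by
  ext w
  simp [revC]

theorem D0_map (C : List (List ℕ)) : D0 (C.map List.reverse) = D0 C := by
  simp [D0, List.length_flatten, Function.comp_def]

/-- bounded delay implies unique factorisation -/
theorem bdd_ud {C : Finset (List ℕ)} (h0 : [] ∉ C) {D : ℕ} (hD : BDD C D) : UD C :=
  up_ud h0 (fun _ hc _ hc' _ hy _ hy' e => bdd_up h0 hD hc hc' hy hy' e)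

/-- the candidates of the procedure -/
theorem cand (x : Inp) (C : Finset (List ℕ)) (hn : ∀ c ∈ C, ∀ a ∈ c, a < x.1)
    (hlen : ∀ c ∈ C, c.length ≤ BB x) :
    ∃ C' ∈ subs (wdLe x.1 (BB x)), C'.Nodup ∧ C'.toFinset = C :=
  mem_subs _ (wdLe_nodup _ _) C fun c hc => (mem_wdLe _ _ _).2 ⟨hlen c hc, hn c hc⟩

theorem PX_of (x : Inp) (C : Finset (List ℕ)) (h0 : [] ∉ C) (hn : ∀ c ∈ C, ∀ a ∈ c, a < x.1)
    (hlen : ∀ c ∈ C, c.length ≤ BB x)
    (hB : BDD C (∑ e ∈ C, (e.length + 1)) ∨ BDD (revC C) (∑ e ∈ revC C, (e.length + 1)))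
    (hL : LX x = Fac C) : PX x := by
  obtain ⟨C', hC', hnd, rfl⟩ := cand x C hn hlen
  have h0' : [] ∉ C' := by simpa using h0
  have hndr : (C'.map List.reverse).Nodup := hnd.map List.reverse_injective
  have h0r : [] ∉ C'.map List.reverse := by simpa using h0'
  refine ⟨C', hC', h0', ?_, ?_⟩
  · rcases hB with hB | hB
    · left
      rw [delOK_iff C' h0', D0_eq C' hnd]; exact hB
    · right
      rw [delOK_iff _ h0r, D0_eq _ hndr, map_rev_toFinset]; exact hB
  · intro w _
    rw [facX_iff C' h0', hL]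

theorem PX_iff (x : Inp) : PX x ↔ Good (LX x) := by
  constructor
  · rintro ⟨C, hC, h0, hdel, hw⟩
    obtain ⟨hnd, hmem⟩ := subs_nodup _ (wdLe_nodup _ _) C hC
    have h0' : [] ∉ C.toFinset := by simpa using h0
    have h0r : [] ∉ C.map List.reverse := by simpa using h0
    have h0r' : [] ∉ (C.map List.reverse).toFinset := by simpa using h0
    have hn : ∀ c ∈ C.toFinset, ∀ a ∈ c, a < x.1 := by
      intro c hc
      exact ((mem_wdLe _ _ _).1 (hmem c (by simpa using hc))).2
    have hL : LX x = Fac C.toFinset := by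
      have h1 := short_diff x C.toFinset h0' (by
        intro w hwn hwl
        rw [hw w ((mem_wdLe _ _ _).2 ⟨by rw [KK, D0_eq C hnd]; exact hwl, hwn⟩), facX_iff C h0])
      ext w
      constructor
      · intro hwL
        exact (h1 w hwL.1).1 hwL
      · intro hwF
        exact (h1 w (fac_letters hn hwF)).2 hwF
    refine ⟨C.toFinset, ?_, ?_, hL⟩
    · rcases hdel with hdel | hdel
      · exact bdd_ud h0' ((delOK_iff C h0).1 hdel)
      · have h2 := (delOK_iff _ h0r).1 hdel
        have h3 := bdd_ud h0r' h2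
        rw [map_rev_toFinset] at h3
        have h4 := ud_rev h3
        rwa [rev_rev] at h4
    · rcases hdel with hdel | hdel
      · exact ⟨_, Or.inl ((delOK_iff C h0).1 hdel)⟩
      · refine ⟨D0 (C.map List.reverse), Or.inr ?_⟩
        rw [← map_rev_toFinset]
        exact (delOK_iff _ h0r).1 hdel
  · rintro ⟨C, hud, ⟨D, hD⟩, hL⟩
    have h0 := ud_nil hud
    have hn : ∀ c ∈ C, ∀ a ∈ c, a < x.1 := by
      intro c hc
      have h1 : c ∈ LX x := by rw [hL]; exact mem_fac_self hc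
      exact h1.1
    rcases hD with hD | hD
    · have hfew : Few (Fac C) (NN x) := by rw [← hL]; exact few_LX x
      obtain ⟨C', h0', hn', hlen, hud', hB, hF⟩ := short_bdd h0 hn hfew hD
      refine PX_of x C' h0' hn' ?_ (Or.inl hB) (by rw [hL, hF])
      intro c hc
      refine (hlen c hc).trans ?_
      unfold BB
      have h3 : NN x ≤ 2 ^ NN x := Nat.lt_two_pow_self.le
      exact Nat.pow_le_pow_right (by norm_num) (Nat.pow_le_pow_right (by norm_num) h3)
    · have hnr : ∀ c ∈ revC C, ∀ a ∈ c, a < x.1 := by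
        intro c hc a ha
        obtain ⟨d, hd, rfl⟩ := Finset.mem_image.1 hc
        exact hn d hd a (by simpa using ha)
      have hfew : Few (Fac (revC C)) (2 ^ NN x) := by
        rw [fac_rev, ← hL]; exact few_rev x
      obtain ⟨C', h0', hn', hlen, hud', hB, hF⟩ := short_bdd (revC_nil h0) hnr hfew hD
      refine PX_of x (revC C') (revC_nil h0') ?_ ?_ (Or.inr (by rw [rev_rev]; exact hB)) ?_
      · intro c hc a ha
        obtain ⟨d, hd, rfl⟩ := Finset.mem_image.1 hc
        exact hn' d hd a (by simpa using ha)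
      · intro c hc
        obtain ⟨d, hd, rfl⟩ := Finset.mem_image.1 hc
        rw [List.length_reverse]
        exact hlen d hd
      · rw [fac_rev, hF, fac_rev, hL, ← Set.image_comp]
        have : (List.reverse ∘ List.reverse : List ℕ → List ℕ) = id := by
          funext w; simp
        rw [this, Set.image_id]

theorem final : ∃ f : Inp → Bool, Computable f ∧ ∀ x : Inp, (f x = true ↔ Good (LX x)) := by
  obtain ⟨hdec, hp⟩ := pp_PX
  refine ⟨fun x => decide (PX x), hp.to_comp, fun x => ?_⟩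
  rw [decide_eq_true_iff, PX_iff]

end Pool.Agent.Helper31.BD
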